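import Pool.Agent.Helper42.IR.E.Uni

/-!
# IR-48 (project IR, section 5.1): Lemma E, the exceptional case

`A = N_G(Q)`, `N = NN K Q`, `l0 ∈ IrrS Q`, `l0 ≠ oneS Q`, `aa Q H χ l0 φ ≠ 0`, `EX K Q H ψ φ l0 1`.
`ρ` from `uni` for `l0`. Put `D = Q ⊔ H`, `ζ = prodC Q l0 φ ∈ IrrS D`, `S = Q ⊔ H2`,
`Ψ = prodC Q l0 ρ ∈ IrrS S` (`prodC_mem`, for `K ⊔ H2`). `Ψ = ζ` on `D` (`prodC_apply`).
* `ψ` is over `ζ`: `1 = aa Q H ψ l0 φ = ip D ψ ζ - ip D ψ (prodC Q (oneS Q) φ)` (`aa_eq_ip`), natural numbers.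
* `N ⊓ stab ζ = D`: if `n ∈ N` fixes `ζ` it fixes `l0` and `φ` (`cnj_prodC`, `prodC_inj`), so it
  centralizes `Q` (`stab_lam`): `n ∈ K ⊓ C(Q) = Q ⊔ H`; and `ζ` is a class function on `D`.
  `cliff_corr` with `L = D`, `J = N`, `φ := ζ`, `ξ := ζ`: `deg ψ = |N : D| deg φ` and `ψ` is the only
  character in `IrrS N` over `ζ`.
* `A = N S`: for `a ∈ A`, `ip D ψ (cnj a ζ) = ip D ψ ζ ≠ 0` (`cnj a ψ = ψ`, `a` normalizes `D`:
  `Loc.norm_sup`); `clifford` gives `n ∈ N` with `cnj n ζ = cnj a ζ`, so `n⁻¹ a` fixes `l0` and `φ`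
  and is in `C(Q) ⊓ stab φ = Q ⊔ H2` (`hcent`). Hence `|A : S| ≤ |N : N ⊓ S|` and `N ⊓ S = D`
  (`K ⊓ (Q ⊔ H2) = Q ⊔ H` by `hKH`), `relIndex_of_prod`.
* `ext_by_deg` gives `f`; `ip H2 f ρ ≠ 0` by `ip_trans` for `H2 ≤ S ≤ A` as `Ψ = ρ` on `H2`.
* `ip H2 χh ρ ≠ 0` (`ip_of_aa`): by `aa_eq_ip` for `K ⊔ H2` one of the multiplicities of
  `prodC Q l0 ρ`, `prodC Q (oneS Q) ρ` in the restriction of `χh` to `Q ⊔ H2` is nonzero; both restrict to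
  `ρ` on `H2`; `ip_trans` (for `⊤` or `K ⊔ H2`).
-/

namespace Pool.Agent.Helper42.IR.E

open Pool.Agent.Helper42.INC Pool.Agent.Helper42.IR Pool.Agent.Helper97.S4

variable {G : Type} [Group G] [Finite G] {p : ℕ} [Fact p.Prime] {K Q H H2 : Subgroup G}

theorem relIndex_of_prod {A S N : Subgroup G} (hS : S ≤ A) (hN : N ≤ A)
    (h : ∀ a ∈ A, ∃ n ∈ N, ∃ s ∈ S, a = n * s) : S.relIndex A = (N ⊓ S).relIndex N := by
  unfold Subgroup.relIndex Subgroup.index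
  symm
  have key : ∀ n m : N, (QuotientGroup.mk (⟨n.1, hN n.2⟩ : A) : A ⧸ S.subgroupOf A) =
      QuotientGroup.mk (⟨m.1, hN m.2⟩ : A) ↔ (n.1)⁻¹ * m.1 ∈ S := by
    intro n m
    rw [QuotientGroup.eq, Subgroup.mem_subgroupOf]
    rfl
  refine Nat.card_eq_of_bijective (Quotient.lift
    (fun n : N => (QuotientGroup.mk (⟨n.1, hN n.2⟩ : A) : A ⧸ S.subgroupOf A)) ?_) ⟨?_, ?_⟩
  · intro n m hnm
    have h1 : (QuotientGroup.mk n : N ⧸ (N ⊓ S).subgroupOf N) = QuotientGroup.mk m :=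
      Quotient.sound hnm
    rw [QuotientGroup.eq, Subgroup.mem_subgroupOf] at h1
    exact (key n m).2 h1.2
  · intro x y hxy
    induction x using Quotient.inductionOn with
    | h n =>
      induction y using Quotient.inductionOn with
      | h m =>
        have h1 : (n.1)⁻¹ * m.1 ∈ S := (key n m).1 hxy
        have h2 : (QuotientGroup.mk n : N ⧸ (N ⊓ S).subgroupOf N) = QuotientGroup.mk m := by
          rw [QuotientGroup.eq, Subgroup.mem_subgroupOf]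
          exact ⟨N.mul_mem (N.inv_mem n.2) m.2, h1⟩
        exact h2
  · intro z
    obtain ⟨⟨a, ha⟩, rfl⟩ := QuotientGroup.mk_surjective z
    obtain ⟨n, hn, s, hs, rfl⟩ := h a ha
    refine ⟨(QuotientGroup.mk (⟨n, hn⟩ : N) : N ⧸ (N ⊓ S).subgroupOf N), ?_⟩
    have h1 : (QuotientGroup.mk (⟨n, hN hn⟩ : A) : A ⧸ S.subgroupOf A) =
        QuotientGroup.mk (⟨n * s, ha⟩ : A) := by
      rw [QuotientGroup.eq, Subgroup.mem_subgroupOf]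
      have e : n⁻¹ * (n * s) = s := by group
      change n⁻¹ * (n * s) ∈ S
      rw [e]
      exact hs
    exact h1

private lemma ci_congr {L : Subgroup G} {f f' : G → ℂ} (g : G → ℂ) (h : ∀ x ∈ L, f x = f' x) :
    ip L f g = ip L f' g := by
  unfold ip
  congr 1
  funext x
  exact h x.1 x.2

private lemma ci_self {L : Subgroup G} {ρ : G → ℂ} (hρ : ρ ∈ IrrS L) : ip L ρ ρ ≠ 0 := by
  classical
  rw [ip_irrS hρ hρ, if_pos rfl]
  exact one_ne_zero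

/-- constituents of constituents -/
private lemma ci_trans {L M J : Subgroup G} (hLM : L ≤ M) (hMJ : M ≤ J) {χ θ ρ : G → ℂ}
    (hχ : χ ∈ IrrS J) (hθ : θ ∈ IrrS M) (hρ : ρ ∈ IrrS L) (h1 : ip M χ θ ≠ 0)
    (h2 : ip L θ ρ ≠ 0) : ip L χ ρ ≠ 0 := by
  have hfin : Finite (IrrS M) := irrS_finite M
  have := Fintype.ofFinite (IrrS M)
  rw [ip_trans hLM hMJ hχ ρ, finsum_eq_sum_of_fintype]
  have hnat : ∀ τ : IrrS M, ∃ n : ℕ, ip M χ τ.1 * ip L τ.1 ρ = n := by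
    intro τ
    obtain ⟨a, ha⟩ := ip_res_nat hMJ hχ τ.2
    obtain ⟨b, hb⟩ := ip_res_nat hLM τ.2 hρ
    refine ⟨a * b, ?_⟩
    rw [ha, hb]
    push_cast
    rfl
  choose n hn using hnat
  rw [Finset.sum_congr rfl (fun τ _ => hn τ), ← Nat.cast_sum]
  have h5 : n ⟨θ, hθ⟩ ≠ 0 := by
    intro h0
    have h6 := hn ⟨θ, hθ⟩
    rw [h0, Nat.cast_zero] at h6
    exact mul_ne_zero h1 h2 h6
  have h11 : 0 < ∑ τ, n τ := by
    refine lt_of_lt_of_le (Nat.pos_of_ne_zero h5) ?_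
    exact Finset.single_le_sum (f := n) (fun _ _ => Nat.zero_le _) (Finset.mem_univ _)
  exact_mod_cast h11.ne'

private lemma ci_top {χ : G → ℂ} (h : χ ∈ Irr G) : χ ∈ IrrS (⊤ : Subgroup G) := by
  refine ⟨?_, fun x hx => absurd (Subgroup.mem_top x) hx⟩
  exact irr_comp (Subgroup.topEquiv (G := G)) h

/-- the product character restricts to the second factor -/
private lemma ci_prod (hL : Loc p K Q H) {lam φ : G → ℂ} (hl : lam ∈ IrrS Q) (hφ : φ ∈ IrrS H)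
    {x : G} (hx : x ∈ H) : prodC Q lam φ x = φ x := by
  have h1 := prodC_apply (lam := lam) hL hφ Q.one_mem hx
  rw [one_mul, (lin_mul hL hl).1, one_mul] at h1
  exact h1

variable [K.Normal]

theorem ip_of_aa (hL2 : Loc p (K ⊔ H2) Q H2) {χh : G → ℂ} (hχh : χh ∈ Irr G) {lam ρ : G → ℂ}
    (hl : lam ∈ IrrS Q) (hρ : ρ ∈ IrrS H2) (ha : aa Q H2 (rest (K ⊔ H2) χh) lam ρ ≠ 0) :
    ip H2 χh ρ ≠ 0 := by
  have hle : Q ⊔ H2 ≤ K ⊔ H2 := (Loc.sup_le hL2).trans inf_le_left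
  have hres : ∀ x ∈ Q ⊔ H2, rest (K ⊔ H2) χh x = χh x := by
    intro x hx
    unfold rest
    rw [if_pos (hle hx)]
  have h1 : ∃ lam' ∈ IrrS Q, ip (Q ⊔ H2) χh (prodC Q lam' ρ) ≠ 0 := by
    by_contra hcon
    push Not at hcon
    apply ha
    rw [aa_eq_ip hL2 hρ, ci_congr _ hres, ci_congr _ hres, hcon lam hl,
      hcon (oneS Q) (oneS_mem Q), sub_zero]
  obtain ⟨lam', hl', h2⟩ := h1
  refine ci_trans (L := H2) (M := Q ⊔ H2) (J := ⊤) le_sup_right le_top (ci_top hχh)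
    (prodC_mem hL2 hl' hρ) hρ h2 ?_
  rw [ci_congr (f' := ρ) _ (fun x hx => ci_prod hL2 hl' hρ hx)]
  exact ci_self hρ

private lemma ci_normK (g : G) : g ∈ Subgroup.normalizer (K : Set G) := by
  rw [Subgroup.mem_normalizer_iff]
  intro k
  constructor
  · intro hk
    exact Subgroup.Normal.conj_mem inferInstance k hk g
  · intro hk
    have h1 := Subgroup.Normal.conj_mem (H := K) inferInstance _ hk g⁻¹
    have e : g⁻¹ * (g * k * g⁻¹) * g⁻¹⁻¹ = k := by group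
    rwa [e] at h1

theorem caseI (hL : Loc p K Q H) {φ : G → ℂ} (hφ : φ ∈ IrrS H) (h2 : Hyp2 p K Q H H2 φ)
    (hP : Pkg p K Q H) (hP2 : Pkg p (K ⊔ H2) Q H2) {χh χ ψ : G → ℂ} (hχh : χh ∈ Irr G)
    (hχ : χ ∈ IrrSP p K) (hres : ∀ k ∈ K, χh k = χ k) (hψ : ψ ∈ IrrSP p (NN K Q))
    (hinv : ∀ a ∈ Subgroup.normalizer (Q : Set G), cnj a ψ = ψ) {l0 : G → ℂ}
    (hl : l0 ∈ IrrS Q) (hl1 : l0 ≠ oneS Q) (hex : EX K Q H ψ φ l0 1)
    (ha : aa Q H χ l0 φ ≠ 0) :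
    ∃ f ∈ IrrS (Subgroup.normalizer (Q : Set G)), (∀ n ∈ NN K Q, f n = ψ n) ∧
      ∃ ρ ∈ IrrS H2, ip H2 f ρ ≠ 0 ∧ ip H2 χh ρ ≠ 0 := by
  obtain ⟨ρ, hρ, haρ, hρφ, -⟩ := uni hL hφ h2 hP hP2 hχh hχ hres hl ha
  have hζ : prodC Q l0 φ ∈ IrrS (Q ⊔ H) := prodC_mem hL hl hφ
  have hΨ : prodC Q l0 ρ ∈ IrrS (Q ⊔ H2) := prodC_mem h2.hL2 hl hρ
  have hΨζ : ∀ x ∈ Q ⊔ H, prodC Q l0 ρ x = prodC Q l0 φ x := by
    intro x hx
    obtain ⟨q, hq, h, hh, rfl⟩ := (Loc.mem_sup hL).1 hx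
    rw [prodC_apply hL hφ hq hh, prodC_apply h2.hL2 hρ hq (h2.hH hh), hρφ h hh]
  have hDN : Q ⊔ H ≤ NN K Q := Loc.sup_le hL
  have hnD : ∀ a ∈ Subgroup.normalizer (Q : Set G),
      a ∈ Subgroup.normalizer ((Q ⊔ H : Subgroup G) : Set G) := fun a haQ =>
    Loc.norm_sup hL (ci_normK a) haQ
  have hnN : NN K Q ≤ Subgroup.normalizer ((Q ⊔ H : Subgroup G) : Set G) := fun a haN =>
    hnD a haN.2
  -- `ψ` is over `ζ`
  have hover : ip (Q ⊔ H) ψ (prodC Q l0 φ) ≠ 0 := by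
    have h1 : aa Q H ψ l0 φ = 1 :=
      (hex l0 hl hl1).1 ⟨1, (NN K Q).one_mem, cnj_one _, cnj_one _⟩
    rw [aa_eq_ip hL hφ] at h1
    obtain ⟨m, hm⟩ := ip_res_nat hDN hψ.1 (prodC_mem hL (oneS_mem Q) hφ)
    rw [hm] at h1
    intro h3
    rw [h3, zero_sub] at h1
    have h4 : ((m + 1 : ℕ) : ℂ) = 0 := by
      push_cast
      rw [← h1]
      ring
    exact Nat.succ_ne_zero m (by exact_mod_cast h4)
  -- elements of `A` fixing `ζ`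
  have hfix : ∀ s ∈ Subgroup.normalizer (Q : Set G), cnj s (prodC Q l0 φ) = prodC Q l0 φ →
      s ∈ Subgroup.centralizer (Q : Set G) ∧ cnj s φ = φ := by
    intro s hs hs1
    rw [cnj_prodC Q hs] at hs1
    have hsH : s ∈ Subgroup.normalizer (H : Set G) := Pool.Agent.Helper97.S4.Loc.norm_H hL (ci_normK s) hs
    obtain ⟨h3, h4⟩ := prodC_inj hL (cnj_mem_irrS hs hl) hl (cnj_mem_irrS hsH hφ) hφ hs1
    exact ⟨stab_lam hL hl hl1 hs h3, h4⟩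
  have hstab : NN K Q ⊓ stab (prodC Q l0 φ) = Q ⊔ H := by
    apply le_antisymm
    · intro n hn
      have h3 := (hfix n hn.1.2 hn.2).1
      rw [hL.sup]
      exact ⟨hn.1.1, h3⟩
    · intro d hd
      exact ⟨hDN hd, cnj_eq_self hd hζ⟩
  have hcc := cliff_corr (L := Q ⊔ H) (J := NN K Q) (φ := prodC Q l0 φ) (ξ := prodC Q l0 φ)
    (ψ := ψ) hDN hnN hζ (by rw [hstab]; exact hζ) (ci_self hζ) hψ.1
    (by rw [hstab]; exact hover)
  rw [hstab] at hcc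
  obtain ⟨hdeg, -, huniq⟩ := hcc
  -- `A = N S`
  have hprod : ∀ a ∈ Subgroup.normalizer (Q : Set G), ∃ n ∈ NN K Q, ∃ s ∈ Q ⊔ H2,
      a = n * s := by
    intro a haQ
    have h3 : ip (Q ⊔ H) ψ (cnj a (prodC Q l0 φ)) ≠ 0 := by
      have h4 := ip_cnj (hnD a haQ) ψ (prodC Q l0 φ)
      rw [hinv a haQ] at h4
      rw [h4]
      exact hover
    obtain ⟨k, hk, hkk⟩ := clifford hDN hnN hψ.1 hζ (cnj_mem_irrS (hnD a haQ) hζ) hover h3
    have h4 : cnj (k⁻¹ * a) (prodC Q l0 φ) = prodC Q l0 φ := by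
      rw [← cnj_cnj, ← hkk, cnj_inv_cnj]
    have h5 : k⁻¹ * a ∈ Subgroup.normalizer (Q : Set G) :=
      Subgroup.mul_mem _ (Subgroup.inv_mem _ hk.2) haQ
    obtain ⟨h6, h7⟩ := hfix _ h5 h4
    refine ⟨k, hk, k⁻¹ * a, ?_, by group⟩
    rw [← h2.hcent]
    exact ⟨h6, h7⟩
  have hSA : Q ⊔ H2 ≤ Subgroup.normalizer (Q : Set G) := by
    rw [← h2.hcent]
    exact inf_le_left.trans (Subgroup.centralizer_le_normalizer _)
  have hNA : NN K Q ≤ Subgroup.normalizer (Q : Set G) := inf_le_right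
  have hDS : Q ⊔ H ≤ Q ⊔ H2 := sup_le_sup_left h2.hH Q
  have hNS : NN K Q ⊓ (Q ⊔ H2) = Q ⊔ H := by
    apply le_antisymm
    · rintro n ⟨hn, hn2⟩
      obtain ⟨q, hq, h, hh, rfl⟩ := (Loc.mem_sup h2.hL2).1 hn2
      have h3 : h ∈ K := by
        have h4 := K.mul_mem (K.inv_mem (hL.QK hq)) hn.1
        rwa [inv_mul_cancel_left] at h4
      have h5 : h ∈ H := by
        rw [← h2.hKH]
        exact ⟨h3, hh⟩
      exact (Loc.mem_sup hL).2 ⟨q, hq, h, h5, rfl⟩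
    · exact le_inf hDN hDS
  have hidx := relIndex_of_prod hSA hNA hprod
  rw [hNS] at hidx
  have hdegΨ : deg (prodC Q l0 ρ) = deg (prodC Q l0 φ) := by
    unfold deg
    rw [hΨζ 1 (Subgroup.one_mem _)]
  obtain ⟨f, hf, hfΨ, hfψ⟩ := ext_by_deg hSA hNA hDS hDN hΨ hψ.1 hζ hΨζ huniq
    (by rw [hidx, hdegΨ, hdeg])
  refine ⟨f, hf, hfψ, ρ, hρ, ?_, ip_of_aa h2.hL2 hχh hl hρ haρ⟩
  refine ci_trans (L := H2) (M := Q ⊔ H2) le_sup_right hSA hf hΨ hρ hfΨ ?_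
  rw [ci_congr (f' := ρ) _ (fun x hx => ci_prod h2.hL2 hl hρ hx)]
  exact ci_self hρ

end Pool.Agent.Helper42.IR.E
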