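import Pool.Agent.Helper42.IR.Defs

/-!
# IR-47 (project IR, section 5.1): gluing two extensions of `φ`

`T`, `H2`, `H` subgroups of `G` with `T ⊓ H2 = H`, `H2` normalizes `T`, `t h t⁻¹ h⁻¹ ∈ H` for `t ∈ T`,
`h ∈ H2`; `ξ ∈ IrrS T` and `ρ ∈ IrrS H2` restrict to `φ ∈ IrrS H`; `ξ` is fixed by `H2`.

Let `D : T → GL(V)` afford `ξ` and `E : H2 → GL(V)` afford `ρ` on the same space with `E = D` on `H`
(both restrictions to `H` afford `φ`, so they are isomorphic; transport `E` by an isomorphism). The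
restriction `D|_H` is irreducible. Let `h ∈ H2`. As `cnj h ξ = ξ` there is an invertible `Y` with
`Y D(t) Y⁻¹ = D(h t h⁻¹)` for `t ∈ T` (equal characters: isomorphic representations). `E(h)` satisfies
the same for `t ∈ H`, so `E(h) = z Y` by Schur for `D|_H`, and
(1) `E(h) D(t) E(h)⁻¹ = D(h t h⁻¹)` for all `t ∈ T`.

`glue_inv`: for `t ∈ T`: `D(t)⁻¹ E(h) D(t) = D(t⁻¹ h t h⁻¹) E(h) = E(t⁻¹ h t h⁻¹) E(h) = E(t⁻¹ h t)`
(`t⁻¹ h t h⁻¹ ∈ H`); traces: `ρ(t⁻¹ h t) = ρ(h)`; off `H2` both sides of `cnj t ρ = ρ` vanish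
(`t` normalizes `H2` as `t⁻¹ h t ∈ H h`).

`glue_exists`: `T ⊔ H2 = {t h}` and `M(t h) = D(t) E(h)` is well defined (`D = E` on `T ⊓ H2 = H`) and
multiplicative by (1): `(t h)(t' h') = t (h t' h⁻¹) h h'`. Its character `m` is irreducible (already on
`H`), extends `ξ` and `ρ`. If `s` normalizes `T`, `H2` and `H` and fixes `ξ`, `ρ`, then it fixes `m`: let
`Z1 D(s⁻¹ t s) Z1⁻¹ = D(t)` (`t ∈ T`), `Z2 E(s⁻¹ h s) Z2⁻¹ = E(h)` (`h ∈ H2`); on `H` both are
intertwiners for the irreducible `D|_H`, so `Z2` is a multiple of `Z1`, and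
`Z1 M(s⁻¹ g s) Z1⁻¹ = M(g)`.
-/

namespace Pool.Agent.Helper42.IR.E

open Pool.Agent.Helper42.INC Pool.Agent.Helper42.IR

/-! ### representations with irreducible character -/

section rep

variable {M : Type} [Group M] [Finite M]
variable {V W : Type} [AddCommGroup V] [Module ℂ V] [FiniteDimensional ℂ V]
  [AddCommGroup W] [Module ℂ W] [FiniteDimensional ℂ W]

private lemma g2_nontrivial (σ : Representation ℂ M V) (h : σ.character ∈ Irr M) :
    Nontrivial V := by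
  obtain ⟨n, hn, h1⟩ := irr_one h
  have h2 : σ.character 1 = Module.finrank ℂ V := Representation.char_one σ
  rw [h2] at h1
  have h3 : Module.finrank ℂ V = n := by exact_mod_cast h1
  exact Module.nontrivial_of_finrank_pos (R := ℂ) (by omega)

private lemma g2_schur (σ : Representation ℂ M V) (h : σ.character ∈ Irr M)
    (A : V →ₗ[ℂ] V) (hA : ∀ m, A * σ m = σ m * A) : ∃ c : ℂ, A = c • (1 : V →ₗ[ℂ] V) := by
  have := Fintype.ofFinite M
  have hnt := g2_nontrivial σ h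
  have hB := B_irr_self h
  rw [B_eq, Representation.card_inv_mul_sum_char_mul_char_eq_finrank] at hB
  have hfin : Module.finrank ℂ (Representation.IntertwiningMap σ σ) = 1 := by
    exact_mod_cast hB
  let I1 : Representation.IntertwiningMap σ σ := ⟨1, fun m => by
    change (1 : V →ₗ[ℂ] V) * σ m = σ m * 1
    rw [one_mul, mul_one]⟩
  have hne : I1 ≠ 0 := by
    intro h0
    have h1 : I1.toLinearMap = 0 := by
      rw [h0]; rfl
    have h2 : (1 : V →ₗ[ℂ] V) = 0 := h1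
    exact one_ne_zero h2
  obtain ⟨c, hc⟩ := (finrank_eq_one_iff_of_nonzero' _ hne).1 hfin ⟨A, fun m => hA m⟩
  refine ⟨c, ?_⟩
  have h1 : (c • I1).toLinearMap = A := by rw [hc]
  exact h1.symm

private lemma g2_mem_irr (σ : Representation ℂ M V) (hnt : Nontrivial V)
    (h : ∀ A : V →ₗ[ℂ] V, (∀ m, A * σ m = σ m * A) → ∃ c : ℂ, A = c • (1 : V →ₗ[ℂ] V)) :
    σ.character ∈ Irr M := by
  have := Fintype.ofFinite M
  refine irr_of_norm_one _ (char_isClass _) ?_ ?_
  · rintro χ ⟨V, _, _, _, ρ, hρ, rfl⟩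
    exact B_char _ _
  · rw [B_eq, Representation.card_inv_mul_sum_char_mul_char_eq_finrank]
    let I1 : Representation.IntertwiningMap σ σ := ⟨1, fun m => by
      change (1 : V →ₗ[ℂ] V) * σ m = σ m * 1
      rw [one_mul, mul_one]⟩
    have hne : I1 ≠ 0 := by
      intro h0
      have h1 : I1.toLinearMap = 0 := by
        rw [h0]; rfl
      have h2 : (1 : V →ₗ[ℂ] V) = 0 := h1
      exact one_ne_zero h2
    have hfin : Module.finrank ℂ (Representation.IntertwiningMap σ σ) = 1 := by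
      rw [finrank_eq_one_iff_of_nonzero' _ hne]
      intro w
      obtain ⟨c, hc⟩ := h w.toLinearMap (fun m => w.isIntertwining' m)
      refine ⟨c, ?_⟩
      apply Representation.IntertwiningMap.ext
      exact hc.symm
    rw [hfin]
    simp

private lemma g2_equiv (σ : Representation ℂ M V) (τ : Representation ℂ M W)
    (h : σ.character ∈ Irr M) (hch : σ.character = τ.character) :
    ∃ e : V ≃ₗ[ℂ] W, ∀ m, ∀ v, e (σ m v) = τ m (e v) := by
  have := Fintype.ofFinite M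
  have key : ∀ {U X : Type} [AddCommGroup U] [Module ℂ U] [FiniteDimensional ℂ U]
      [AddCommGroup X] [Module ℂ X] [FiniteDimensional ℂ X]
      (α : Representation ℂ M U) (β : Representation ℂ M X), α.IsIrreducible →
      α.character = β.character → ∃ e : U ≃ₗ[ℂ] X, ∀ m, ∀ v, e (α m v) = β m (e v) := by
    intro U X _ _ _ _ _ _ α β hα hab
    have hα' : α.character ∈ Irr M := ⟨U, _, _, ‹_›, α, hα, rfl⟩
    have hB := B_irr_self hα'
    nth_rewrite 1 [hab] at hB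
    rw [B_eq, Representation.card_inv_mul_sum_char_mul_char_eq_finrank] at hB
    have hfin : Module.finrank ℂ (Representation.IntertwiningMap α β) = 1 := by
      exact_mod_cast hB
    have hnt : Nontrivial (Representation.IntertwiningMap α β) :=
      Module.nontrivial_of_finrank_pos (R := ℂ) (by omega)
    obtain ⟨f, hf⟩ := exists_ne (0 : Representation.IntertwiningMap α β)
    have hfi : ∀ m v, f.toLinearMap (α m v) = β m (f.toLinearMap v) := fun m v =>
      LinearMap.congr_fun (f.isIntertwining' m) v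
    have hirr := (isIrreducible_iff α).1 hα
    have hker : LinearMap.ker f.toLinearMap = ⊥ := by
      rcases hirr.2 (LinearMap.ker f.toLinearMap) (fun m v hv => by
        rw [LinearMap.mem_ker] at hv ⊢
        rw [hfi, hv, map_zero]) with h1 | h1
      · exact h1
      · exfalso
        apply hf
        apply Representation.IntertwiningMap.ext
        apply LinearMap.ext
        intro v
        have h2 : v ∈ LinearMap.ker f.toLinearMap := by rw [h1]; trivial
        exact h2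
    have hd : Module.finrank ℂ U = Module.finrank ℂ X := by
      have h1 : α.character 1 = Module.finrank ℂ U := Representation.char_one α
      have h2 : β.character 1 = Module.finrank ℂ X := Representation.char_one β
      rw [hab, h2] at h1
      exact_mod_cast h1.symm
    exact ⟨LinearMap.linearEquivOfInjective f.toLinearMap (LinearMap.ker_eq_bot.1 hker) hd,
      fun m v => hfi m v⟩
  obtain ⟨U, _, _, _, α, hα, hα2⟩ := h
  obtain ⟨e1, he1⟩ := key α σ hα hα2.symm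
  obtain ⟨e2, he2⟩ := key α τ hα (by rw [← hα2, hch])
  refine ⟨e1.symm.trans e2, fun m v => ?_⟩
  rw [LinearEquiv.trans_apply, LinearEquiv.trans_apply, ← he2]
  congr 1
  rw [LinearEquiv.symm_apply_eq, he1, LinearEquiv.apply_symm_apply]

end rep

variable {G : Type} [Group G] [Finite G] {T H2 H : Subgroup G}

/-! ### the gluing data -/

omit [Finite G] in
private lemma g2_norm_H (hTH : T ⊓ H2 = H) (hn : ∀ h ∈ H2, ∀ t ∈ T, h * t * h⁻¹ ∈ T)
    {h : G} (hh : h ∈ H2) {t : G} (ht : t ∈ H) : h * t * h⁻¹ ∈ H := by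
  rw [← hTH] at ht ⊢
  exact ⟨hn h hh t ht.1, H2.mul_mem (H2.mul_mem hh ht.2) (H2.inv_mem hh)⟩

/-- both characters afforded on one space, with equal restrictions to `H`, and (1) -/
private lemma g2_data (hTH : T ⊓ H2 = H) (hn : ∀ h ∈ H2, ∀ t ∈ T, h * t * h⁻¹ ∈ T)
    {ξ ρ φ : G → ℂ} (hξ : ξ ∈ IrrS T) (hρ : ρ ∈ IrrS H2) (hφ : φ ∈ IrrS H)
    (h1 : ∀ x ∈ H, ξ x = φ x) (h2 : ∀ x ∈ H, ρ x = φ x) (hinv : ∀ h ∈ H2, cnj h ξ = ξ) :
    ∃ (V : Type) (_ : AddCommGroup V) (_ : Module ℂ V) (_ : FiniteDimensional ℂ V)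
      (D : Representation ℂ T V) (E : Representation ℂ H2 V),
      Nontrivial V ∧
      (∀ t : T, ξ t = LinearMap.trace ℂ V (D t)) ∧ (∀ h : H2, ρ h = LinearMap.trace ℂ V (E h)) ∧
      (∀ x (hT : x ∈ T) (hH : x ∈ H2), D ⟨x, hT⟩ = E ⟨x, hH⟩) ∧
      (∀ A : V →ₗ[ℂ] V, (∀ x (_ : x ∈ H) (hT : x ∈ T), A * D ⟨x, hT⟩ = D ⟨x, hT⟩ * A) →
        ∃ c : ℂ, A = c • (1 : V →ₗ[ℂ] V)) ∧
      (∀ (h : H2) (t : T) (ht : (h : G) * t * (h : G)⁻¹ ∈ T),
        E h * D t = D ⟨(h : G) * t * (h : G)⁻¹, ht⟩ * E h) := by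
  have hHT : H ≤ T := by rw [← hTH]; exact inf_le_left
  have hHH : H ≤ H2 := by rw [← hTH]; exact inf_le_right
  obtain ⟨⟨V, i1, i2, i3, D, hD, hDch⟩, -⟩ := id hξ
  obtain ⟨⟨W, j1, j2, j3, E0, hE, hEch⟩, -⟩ := id hρ
  let DH : Representation ℂ H V := D.comp (Subgroup.inclusion hHT)
  let EH : Representation ℂ H W := E0.comp (Subgroup.inclusion hHH)
  have hDch' : ∀ t : T, ξ t = LinearMap.trace ℂ V (D t) := fun t => congrFun hDch t
  have hEch' : ∀ t : H2, ρ t = LinearMap.trace ℂ W (E0 t) := fun t => congrFun hEch t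
  have c1 : DH.character = fun x : H => φ x := by
    funext x
    rw [← h1 x x.2]
    exact (hDch' ⟨x, hHT x.2⟩).symm
  have c2 : EH.character = fun x : H => φ x := by
    funext x
    rw [← h2 x x.2]
    exact (hEch' ⟨x, hHH x.2⟩).symm
  have hDH : DH.character ∈ Irr H := by rw [c1]; exact hφ.1
  obtain ⟨e, he⟩ := g2_equiv DH EH hDH (by rw [c1, c2])
  have he' : ∀ x (hx : x ∈ H) v, e (D ⟨x, hHT hx⟩ v) = E0 ⟨x, hHH hx⟩ (e v) := fun x hx v =>
    he ⟨x, hx⟩ v
  let E : Representation ℂ H2 V :=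
    { toFun := fun h => e.symm.toLinearMap ∘ₗ E0 h ∘ₗ e.toLinearMap
      map_one' := by
        apply LinearMap.ext
        intro v
        simp
      map_mul' := fun a b => by
        apply LinearMap.ext
        intro v
        simp }
  have hEap : ∀ h v, E h v = e.symm (E0 h (e v)) := fun h v => rfl
  have hEtr : ∀ h : H2, ρ h = LinearMap.trace ℂ V (E h) := by
    intro h
    rw [hEch']
    have h3 : E h = e.symm.conj (E0 h) := by
      apply LinearMap.ext
      intro v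
      rw [hEap, LinearEquiv.conj_apply_apply]
      simp
    rw [h3, LinearMap.trace_conj']
  have hDE : ∀ x (hT : x ∈ T) (hH : x ∈ H2), D ⟨x, hT⟩ = E ⟨x, hH⟩ := by
    intro x hT hH
    have hx : x ∈ H := by rw [← hTH]; exact ⟨hT, hH⟩
    apply LinearMap.ext
    intro v
    rw [hEap, ← he' x hx, LinearEquiv.symm_apply_apply]
  have hSch : ∀ A : V →ₗ[ℂ] V, (∀ x (_ : x ∈ H) (hT : x ∈ T), A * D ⟨x, hT⟩ = D ⟨x, hT⟩ * A) →
        ∃ c : ℂ, A = c • (1 : V →ₗ[ℂ] V) := by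
    intro A hA
    exact g2_schur DH hDH A (fun m => hA m m.2 (hHT m.2))
  have hDirr : D.character ∈ Irr T := ⟨V, i1, i2, i3, D, hD, rfl⟩
  refine ⟨V, i1, i2, i3, D, E, g2_nontrivial D hDirr, hDch', hEtr, hDE, hSch, ?_⟩
  intro h t ht
  -- the conjugate representation
  have hn' : ∀ s : T, (h : G) * s * (h : G)⁻¹ ∈ T := fun s => hn h h.2 s s.2
  let Dh : Representation ℂ T V :=
    { toFun := fun s => D ⟨(h : G) * s * (h : G)⁻¹, hn' s⟩
      map_one' := by
        rw [← map_one D]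
        congr 1
        apply Subtype.ext
        simp
      map_mul' := fun a b => by
        rw [← map_mul D]
        congr 1
        apply Subtype.ext
        change (h : G) * (a * b) * (h : G)⁻¹ = ((h : G) * a * (h : G)⁻¹) * ((h : G) * b * (h : G)⁻¹)
        group }
  have hDh : ∀ s, Dh s = D ⟨(h : G) * s * (h : G)⁻¹, hn' s⟩ := fun s => rfl
  have hc1 : D.character = Dh.character := by
    funext s
    change LinearMap.trace ℂ V (D s) = LinearMap.trace ℂ V (Dh s)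
    rw [hDh, ← hDch', ← hDch']
    have h3 := congrFun (hinv (h : G)⁻¹ (H2.inv_mem h.2)) (s : G)
    rw [cnj_apply, inv_inv] at h3
    exact h3.symm
  obtain ⟨y, hy⟩ := g2_equiv D Dh hDirr hc1
  have hcom : ∀ x (_ : x ∈ H) (hT : x ∈ T),
      (y.symm.toLinearMap ∘ₗ E h) * D ⟨x, hT⟩ = D ⟨x, hT⟩ * (y.symm.toLinearMap ∘ₗ E h) := by
    intro x hx hT
    apply LinearMap.ext
    intro v
    change y.symm (E h (D ⟨x, hT⟩ v)) = D ⟨x, hT⟩ (y.symm (E h v))
    rw [LinearEquiv.symm_apply_eq, hy, LinearEquiv.apply_symm_apply, hDh]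
    have hx' : (h : G) * x * (h : G)⁻¹ ∈ H := g2_norm_H hTH hn h.2 hx
    have e1 := hDE x hT (hHH hx)
    have e2 := hDE ((h : G) * x * (h : G)⁻¹) (hHT hx') (hHH hx')
    rw [e1]
    change E h (E ⟨x, hHH hx⟩ v) = D ⟨(h : G) * x * (h : G)⁻¹, hHT hx'⟩ (E h v)
    rw [e2]
    change (E h * E ⟨x, hHH hx⟩) v = (E ⟨(h : G) * x * (h : G)⁻¹, hHH hx'⟩ * E h) v
    rw [← map_mul, ← map_mul]
    congr 2
    apply Subtype.ext
    change (h : G) * x = ((h : G) * x * (h : G)⁻¹) * h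
    group
  obtain ⟨c, hc⟩ := hSch _ hcom
  have hEc : ∀ v, E h v = c • y v := by
    intro v
    have h4 := LinearMap.congr_fun hc v
    change y.symm (E h v) = c • v at h4
    rw [LinearEquiv.symm_apply_eq, map_smul] at h4
    exact h4
  apply LinearMap.ext
  intro v
  change E h (D t v) = D ⟨(h : G) * t * (h : G)⁻¹, ht⟩ (E h v)
  rw [hEc, hEc, hy, map_smul]
  rfl

omit [Finite G] in
private lemma g2_conj_mem (hTH : T ⊓ H2 = H)
    (hc : ∀ t ∈ T, ∀ h ∈ H2, t * h * t⁻¹ * h⁻¹ ∈ H) {t : G} (ht : t ∈ T) {x : G} (hx : x ∈ H2) :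
    t⁻¹ * x * t ∈ H2 := by
  have hHH : H ≤ H2 := by rw [← hTH]; exact inf_le_right
  have h3 := hHH (hc t⁻¹ (T.inv_mem ht) x hx)
  rw [inv_inv] at h3
  have h4 := H2.mul_mem h3 hx
  rwa [inv_mul_cancel_right] at h4

theorem glue_inv (hTH : T ⊓ H2 = H) (hn : ∀ h ∈ H2, ∀ t ∈ T, h * t * h⁻¹ ∈ T)
    (hc : ∀ t ∈ T, ∀ h ∈ H2, t * h * t⁻¹ * h⁻¹ ∈ H) {ξ ρ φ : G → ℂ} (hξ : ξ ∈ IrrS T)
    (hρ : ρ ∈ IrrS H2) (hφ : φ ∈ IrrS H) (h1 : ∀ x ∈ H, ξ x = φ x) (h2 : ∀ x ∈ H, ρ x = φ x)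
    (hinv : ∀ h ∈ H2, cnj h ξ = ξ) {t : G} (ht : t ∈ T) : cnj t ρ = ρ := by
  have hHT : H ≤ T := by rw [← hTH]; exact inf_le_left
  have hHH : H ≤ H2 := by rw [← hTH]; exact inf_le_right
  obtain ⟨V, _, _, _, D, E, hnt, hD, hE, hDE, hS, hcr⟩ := g2_data hTH hn hξ hρ hφ h1 h2 hinv
  funext x
  rw [cnj_apply]
  by_cases hx : x ∈ H2
  · have hx' := g2_conj_mem hTH hc ht hx
    have hk : t⁻¹ * x * t * x⁻¹ ∈ H := by
      have h3 := hc t⁻¹ (T.inv_mem ht) x hx
      rwa [inv_inv] at h3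
    rw [hE ⟨_, hx'⟩, hE ⟨x, hx⟩]
    have e1 : E ⟨t⁻¹ * x * t, hx'⟩ = E ⟨_, hHH hk⟩ * E ⟨x, hx⟩ := by
      rw [← map_mul]
      congr 1
      apply Subtype.ext
      change t⁻¹ * x * t = (t⁻¹ * x * t * x⁻¹) * x
      group
    have hxt : x * t * x⁻¹ ∈ T := hn x hx t ht
    have e2 : D ⟨_, hHT hk⟩ = D ⟨t⁻¹, T.inv_mem ht⟩ * D ⟨x * t * x⁻¹, hxt⟩ := by
      rw [← map_mul]
      congr 1
      apply Subtype.ext
      change t⁻¹ * x * t * x⁻¹ = t⁻¹ * (x * t * x⁻¹)
      group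
    rw [e1, ← hDE _ (hHT hk), e2, mul_assoc]
    have e3 := hcr ⟨x, hx⟩ ⟨t, ht⟩ hxt
    change E ⟨x, hx⟩ * D ⟨t, ht⟩ = D ⟨x * t * x⁻¹, hxt⟩ * E ⟨x, hx⟩ at e3
    rw [← e3, LinearMap.trace_mul_comm, mul_assoc, ← map_mul]
    have e4 : (⟨t, ht⟩ : T) * ⟨t⁻¹, T.inv_mem ht⟩ = 1 := Subtype.ext (mul_inv_cancel t)
    rw [e4, map_one, mul_one]
  · have hx' : t⁻¹ * x * t ∉ H2 := by
      intro h3
      apply hx
      have h4 := g2_conj_mem hTH hc (T.inv_mem ht) h3
      have h5 : t⁻¹⁻¹ * (t⁻¹ * x * t) * t⁻¹ = x := by group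
      rwa [h5] at h4
    rw [hρ.2 _ hx, hρ.2 _ hx']

theorem glue_exists (hTH : T ⊓ H2 = H) (hn : ∀ h ∈ H2, ∀ t ∈ T, h * t * h⁻¹ ∈ T)
    (hc : ∀ t ∈ T, ∀ h ∈ H2, t * h * t⁻¹ * h⁻¹ ∈ H) {ξ ρ φ : G → ℂ} (hξ : ξ ∈ IrrS T)
    (hρ : ρ ∈ IrrS H2) (hφ : φ ∈ IrrS H) (h1 : ∀ x ∈ H, ξ x = φ x) (h2 : ∀ x ∈ H, ρ x = φ x)
    (hinv : ∀ h ∈ H2, cnj h ξ = ξ) :
    ∃ m ∈ IrrS (T ⊔ H2), (∀ x ∈ T, m x = ξ x) ∧ (∀ x ∈ H2, m x = ρ x) ∧
      ∀ s : G, s ∈ Subgroup.normalizer (T : Set G) → s ∈ Subgroup.normalizer (H2 : Set G) →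
        s ∈ Subgroup.normalizer (H : Set G) → cnj s ξ = ξ → cnj s ρ = ρ → cnj s m = m := by
  classical
  have hHT : H ≤ T := by rw [← hTH]; exact inf_le_left
  have hHH : H ≤ H2 := by rw [← hTH]; exact inf_le_right
  obtain ⟨V, i1, i2, i3, D, E, hnt, hD, hE, hDE, hS, hcr⟩ := g2_data hTH hn hξ hρ hφ h1 h2 hinv
  have hle : H2 ≤ Subgroup.normalizer (T : Set G) := by
    intro h hh
    rw [Subgroup.mem_normalizer_iff]
    intro t
    constructor
    · intro ht
      exact hn h hh t ht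
    · intro ht
      have h3 := hn h⁻¹ (H2.inv_mem hh) _ ht
      have h4 : h⁻¹ * (h * t * h⁻¹) * h⁻¹⁻¹ = t := by group
      rwa [h4] at h3
  have hdec : ∀ x : (T ⊔ H2 : Subgroup G), ∃ (t : T) (h : H2), (x : G) = t * h := by
    intro x
    have h3 := x.2
    have h4 : (x : G) ∈ ((T ⊔ H2 : Subgroup G) : Set G) := h3
    rw [Subgroup.coe_mul_of_right_le_normalizer_left T H2 hle] at h4
    obtain ⟨t, ht, h, hh, hth⟩ := h4
    exact ⟨⟨t, ht⟩, ⟨h, hh⟩, hth.symm⟩
  choose a b hab using hdec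
  have wd : ∀ (t t' : T) (h h' : H2), (t : G) * h = t' * h' → D t * E h = D t' * E h' := by
    intro t t' h h' he
    have hk : ((t' : G)⁻¹ * t : G) = h' * (h : G)⁻¹ := by
      rw [inv_mul_eq_iff_eq_mul, ← mul_assoc, ← he]
      group
    have k1 : ((t' : G)⁻¹ * t : G) ∈ T := T.mul_mem (T.inv_mem t'.2) t.2
    have k2 : ((t' : G)⁻¹ * t : G) ∈ H2 := by
      rw [hk]
      exact H2.mul_mem h'.2 (H2.inv_mem h.2)
    have e1 := hDE _ k1 k2
    have e2 : t = t' * ⟨_, k1⟩ := by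
      apply Subtype.ext
      change (t : G) = t' * ((t' : G)⁻¹ * t)
      group
    have e3 : h' = ⟨_, k2⟩ * h := by
      apply Subtype.ext
      change (h' : G) = ((t' : G)⁻¹ * t) * h
      rw [hk]
      group
    rw [e2, e3, map_mul, map_mul, e1, mul_assoc]
  have key : ∀ (h : H2) (t : T), E h * D t = D ⟨(h : G) * t * (h : G)⁻¹, hn h h.2 t t.2⟩ * E h :=
    fun h t => hcr h t _
  let R : Representation ℂ (T ⊔ H2 : Subgroup G) V :=
    { toFun := fun x => D (a x) * E (b x)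
      map_one' := by
        rw [wd (a 1) 1 (b 1) 1 (by rw [← hab]; simp), map_one, map_one, mul_one]
      map_mul' := fun x y => by
        have h3 := wd (a (x * y)) (a x * ⟨(b x : G) * a y * (b x : G)⁻¹, hn _ (b x).2 _ (a y).2⟩)
          (b (x * y)) (b x * b y) (by
          rw [← hab]
          change ((x : G) * (y : G)) = ((a x : G) * ((b x : G) * a y * (b x : G)⁻¹)) *
            ((b x : G) * b y)
          rw [hab x, hab y]
          group)
        rw [h3, map_mul, map_mul]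
        have h4 := key (b x) (a y)
        calc D (a x) * D ⟨(b x : G) * a y * (b x : G)⁻¹, hn _ (b x).2 _ (a y).2⟩ *
              (E (b x) * E (b y))
            = D (a x) * (D ⟨(b x : G) * a y * (b x : G)⁻¹, hn _ (b x).2 _ (a y).2⟩ * E (b x)) *
              E (b y) := by simp only [mul_assoc]
          _ = D (a x) * (E (b x) * D (a y)) * E (b y) := by rw [h4]
          _ = D (a x) * E (b x) * (D (a y) * E (b y)) := by simp only [mul_assoc] }
  have hR : ∀ (x : (T ⊔ H2 : Subgroup G)) (t : T) (h : H2), (x : G) = t * h →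
      R x = D t * E h := by
    intro x t h hx
    exact wd _ _ _ _ (by rw [← hab, hx])
  have hRT : ∀ (x : G) (hx : x ∈ T) (hx' : x ∈ T ⊔ H2), R ⟨x, hx'⟩ = D ⟨x, hx⟩ := by
    intro x hx hx'
    rw [hR _ ⟨x, hx⟩ 1 (by simp), map_one, mul_one]
  have hRH : ∀ (x : G) (hx : x ∈ H2) (hx' : x ∈ T ⊔ H2), R ⟨x, hx'⟩ = E ⟨x, hx⟩ := by
    intro x hx hx'
    rw [hR _ 1 ⟨x, hx⟩ (by simp), map_one, one_mul]
  have hTs : T ≤ T ⊔ H2 := le_sup_left
  have hHs : H2 ≤ T ⊔ H2 := le_sup_right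
  let m : G → ℂ := fun x => if hx : x ∈ T ⊔ H2 then LinearMap.trace ℂ V (R ⟨x, hx⟩) else 0
  have hm : ∀ (x : G) (hx : x ∈ T ⊔ H2), m x = LinearMap.trace ℂ V (R ⟨x, hx⟩) := by
    intro x hx
    exact dif_pos hx
  have hm0 : ∀ x : G, x ∉ T ⊔ H2 → m x = 0 := fun x hx => dif_neg hx
  refine ⟨m, ⟨?_, hm0⟩, ?_, ?_, ?_⟩
  · have h3 : (fun h : (T ⊔ H2 : Subgroup G) => m h) = R.character := by
      funext x
      exact hm x x.2
    rw [h3]
    refine g2_mem_irr R hnt (fun A hA => hS A (fun x hx hT => ?_))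
    have h4 := hA ⟨x, hTs hT⟩
    rwa [hRT x hT] at h4
  · intro x hx
    rw [hm x (hTs hx), hRT x hx]
    exact (hD ⟨x, hx⟩).symm
  · intro x hx
    rw [hm x (hHs hx), hRH x hx]
    exact (hE ⟨x, hx⟩).symm
  · intro s sT sH2 sH hsξ hsρ
    have cT : ∀ t : T, s⁻¹ * (t : G) * s ∈ T := fun t => by
      have h3 := (Subgroup.mem_normalizer_iff.1 (Subgroup.inv_mem _ sT) (t : G)).1 t.2
      rwa [inv_inv] at h3
    have cH2 : ∀ t : H2, s⁻¹ * (t : G) * s ∈ H2 := fun t => by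
      have h3 := (Subgroup.mem_normalizer_iff.1 (Subgroup.inv_mem _ sH2) (t : G)).1 t.2
      rwa [inv_inv] at h3
    have cH : ∀ t ∈ H, s * (t : G) * s⁻¹ ∈ H := fun t ht =>
      (Subgroup.mem_normalizer_iff.1 sH (t : G)).1 ht
    let Ds : Representation ℂ T V :=
      { toFun := fun t => D ⟨s⁻¹ * (t : G) * s, cT t⟩
        map_one' := by
          rw [← map_one D]
          congr 1
          apply Subtype.ext
          simp
        map_mul' := fun x y => by
          rw [← map_mul D]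
          congr 1
          apply Subtype.ext
          change s⁻¹ * ((x : G) * y) * s = (s⁻¹ * (x : G) * s) * (s⁻¹ * (y : G) * s)
          group }
    have hDs : ∀ t, Ds t = D ⟨s⁻¹ * (t : G) * s, cT t⟩ := fun t => rfl
    let Es : Representation ℂ H2 V :=
      { toFun := fun t => E ⟨s⁻¹ * (t : G) * s, cH2 t⟩
        map_one' := by
          rw [← map_one E]
          congr 1
          apply Subtype.ext
          simp
        map_mul' := fun x y => by
          rw [← map_mul E]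
          congr 1
          apply Subtype.ext
          change s⁻¹ * ((x : G) * y) * s = (s⁻¹ * (x : G) * s) * (s⁻¹ * (y : G) * s)
          group }
    have hEs : ∀ t, Es t = E ⟨s⁻¹ * (t : G) * s, cH2 t⟩ := fun t => rfl
    have hDirr : D.character ∈ Irr T := by
      have h3 : (fun h : T => ξ h) = D.character := funext hD
      rw [← h3]
      exact hξ.1
    have hEirr : E.character ∈ Irr H2 := by
      have h3 : (fun h : H2 => ρ h) = E.character := funext hE
      rw [← h3]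
      exact hρ.1
    have hc1 : D.character = Ds.character := by
      funext t
      change LinearMap.trace ℂ V (D t) = LinearMap.trace ℂ V (Ds t)
      rw [hDs, ← hD, ← hD]
      have h3 := congrFun hsξ (t : G)
      rw [cnj_apply] at h3
      exact h3.symm
    have hc2 : E.character = Es.character := by
      funext t
      change LinearMap.trace ℂ V (E t) = LinearMap.trace ℂ V (Es t)
      rw [hEs, ← hE, ← hE]
      have h3 := congrFun hsρ (t : G)
      rw [cnj_apply] at h3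
      exact h3.symm
    obtain ⟨y, hy⟩ := g2_equiv D Ds hDirr hc1
    obtain ⟨z, hz⟩ := g2_equiv E Es hEirr hc2
    -- `y D(t) = D(s⁻¹ t s) y`, `z E(h) = E(s⁻¹ h s) z`
    obtain ⟨c, hcc⟩ := hS (y.symm.toLinearMap ∘ₗ z.toLinearMap) (fun x hx hT => by
      apply LinearMap.ext
      intro v
      change y.symm (z (D ⟨x, hT⟩ v)) = D ⟨x, hT⟩ (y.symm (z v))
      rw [LinearEquiv.symm_apply_eq, hy, LinearEquiv.apply_symm_apply, hDE x hT (hHH hx), hz, hDs,
        hEs]
      congr 1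
      exact (hDE _ _ _).symm)
    have hzy : ∀ v, z v = c • y v := by
      intro v
      have h4 := LinearMap.congr_fun hcc v
      change y.symm (z v) = c • v at h4
      rw [LinearEquiv.symm_apply_eq, map_smul] at h4
      exact h4
    have hc0 : c ≠ 0 := by
      intro h0
      obtain ⟨v, hv⟩ := exists_ne (0 : V)
      apply hv
      apply z.injective
      rw [hzy, h0, zero_smul, map_zero]
    have hyE : ∀ (h : H2) v, y (E h v) = Es h (y v) := by
      intro h v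
      have h4 := hz h v
      rw [hzy, hzy, map_smul] at h4
      exact (smul_right_injective V hc0) h4
    funext x
    rw [cnj_apply]
    by_cases hx : x ∈ T ⊔ H2
    · have hx' : s⁻¹ * x * s ∈ T ⊔ H2 := by
        have h3 : x = (a ⟨x, hx⟩ : G) * (b ⟨x, hx⟩ : G) := hab ⟨x, hx⟩
        have h4 : s⁻¹ * x * s = (s⁻¹ * (a ⟨x, hx⟩ : G) * s) * (s⁻¹ * (b ⟨x, hx⟩ : G) * s) := by
          nth_rewrite 1 [h3]
          group
        rw [h4]
        exact (T ⊔ H2).mul_mem (hTs (cT _)) (hHs (cH2 _))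
      rw [hm _ hx', hm _ hx]
      have e1 : R ⟨s⁻¹ * x * s, hx'⟩ = Ds (a ⟨x, hx⟩) * Es (b ⟨x, hx⟩) := by
        rw [hDs, hEs]
        apply hR
        have h3 : x = (a ⟨x, hx⟩ : G) * (b ⟨x, hx⟩ : G) := hab ⟨x, hx⟩
        change s⁻¹ * x * s = (s⁻¹ * (a ⟨x, hx⟩ : G) * s) * (s⁻¹ * (b ⟨x, hx⟩ : G) * s)
        nth_rewrite 1 [h3]
        group
      have e2 : R ⟨s⁻¹ * x * s, hx'⟩ = y.conj (R ⟨x, hx⟩) := by
        rw [e1]
        apply LinearMap.ext
        intro v
        rw [LinearEquiv.conj_apply_apply]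
        change Ds (a ⟨x, hx⟩) (Es (b ⟨x, hx⟩) v) = y (D (a ⟨x, hx⟩) (E (b ⟨x, hx⟩) (y.symm v)))
        rw [hy, hyE, LinearEquiv.apply_symm_apply]
      rw [e2, LinearMap.trace_conj']
    · have hx' : s⁻¹ * x * s ∉ T ⊔ H2 := by
        intro h3
        apply hx
        have n1 : T ⊔ H2 ≤ (T ⊔ H2).map (MulAut.conj s⁻¹).toMonoidHom := by
          rw [Subgroup.map_sup]
          apply sup_le_sup
          · intro t ht
            refine ⟨s * t * s⁻¹, (Subgroup.mem_normalizer_iff.1 sT t).1 ht, ?_⟩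
            simp [mul_assoc]
          · intro t ht
            refine ⟨s * t * s⁻¹, (Subgroup.mem_normalizer_iff.1 sH2 t).1 ht, ?_⟩
            simp [mul_assoc]
        obtain ⟨u, hu, hu2⟩ := n1 h3
        have h5 : s⁻¹ * u * s⁻¹⁻¹ = s⁻¹ * x * s := hu2
        rw [inv_inv] at h5
        have h6 : u = x := by
          have := mul_right_cancel h5
          exact mul_left_cancel this
        rw [← h6]
        exact hu
      rw [hm0 _ hx, hm0 _ hx']

end Pool.Agent.Helper42.IR.E
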