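import Pool.Agent.Helper42.IR.E.CaseI
import Pool.Agent.Helper42.IR.E.Xi
import Pool.Agent.Helper42.IR.E.Glue2
import Pool.Agent.Helper42.IR.ExtX
import Pool.Agent.Helper97.S4.Shape

/-!
# IR-49 (project IR, section 5.1): Lemma E, the nonexceptional case

`A = N_G(Q)`, `N = NN K Q`, `T = N ⊓ stab φ`, `S = A ⊓ stab φ`. `Q` is in the kernel of `ψ`, and
`aa Q H χ lam φ ≠ 0` for all `lam ≠ oneS Q`.

`ext_cyclic_rel`: the relative form of `ext_cyclic` (apply it to the group `↥S` and the subgroup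
`F.subgroupOf S`; the quotient embeds in a quotient of the cyclic group `π.range ≤ (ZMod p)ˣ`:
`S / F` is a quotient of `S / ker π`, which is isomorphic to `π.range`; subgroups of the cyclic group
`(ZMod p)ˣ` and quotients of cyclic groups are cyclic).

`common_rho`: there is `ρ ∈ IrrS H2`, `ρ = φ` on `H`, fixed by `S`, with
`aa Q H2 (rest (K ⊔ H2) χh) lam ρ ≠ 0` for some `lam ∈ IrrS Q`. Proof: `ξ` from `exists_xi`. The hypotheses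
of `glue_inv` hold for `T`, `H2`, `H`, `ξ` and each `ρ_lam` of `uni`: `T ⊓ H2 = H` (`hKH`, `H ≤ T`),
`H2 ≤ C(Q) ⊓ stab φ ≤ S` (`hcent`), which normalizes `T` and fixes `ξ`; `hcomm`. So every `ρ_lam`
(`lam ≠ oneS Q`) is fixed by `T`, and by `uni_orb` all `ρ_lam` are equal to one `ρ`. For `s ∈ S`: by
`uni_conj` and the uniqueness in `uni` (for `cnj s lam ≠ oneS Q`) `cnj s ρ = ρ_{cnj s lam} = ρ`.

`caseII`: `m ∈ IrrS (T ⊔ H2)` from `glue_exists` for `ξ` and `ρ`; it is fixed by `S` (`S` normalizes `T`,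
`H2` (`hnorm`), `H` (`Loc.norm_H`) and fixes `ξ`, `ρ`). `ext_cyclic_rel` with `F = T ⊔ H2` and the
restriction to `S` of `π` from `exists_piQ`: its kernel on `S` is `S ⊓ C(Q) = Q ⊔ H2 ≤ T ⊔ H2`
(`Q ≤ T`: `Q` centralizes `H`, so it fixes `φ`). So there is `Ψ ∈ IrrS S` with `Ψ = m` on `T ⊔ H2`.
`ext_by_deg` with `A`, `S`, `N`, `D = T`, `ζ = ξ`: `Ψ = ξ` on `T`; uniqueness of `ψ` over `ξ` and
`deg ψ = |N : T| deg φ` from `exists_xi`; `deg Ψ = deg φ` (value at `1`); `|A : S| = |N : T|` by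
`prod_stab` and `relIndex_of_prod` (`N ⊓ S = T`). `ip H2 f ρ ≠ 0` by `ip_trans` as `Ψ = ρ` on `H2`.
`ip H2 χh ρ ≠ 0`: `ip_of_aa`.
-/

namespace Pool.Agent.Helper42.IR.E

open Pool.Agent.Helper42.INC Pool.Agent.Helper42.IR Pool.Agent.Helper97.S4

variable {G : Type} [Group G] [Finite G] {p : ℕ} [Fact p.Prime] {K Q H H2 : Subgroup G}

theorem ext_cyclic_rel {F S : Subgroup G} (hF : F ≤ S)
    (hn : S ≤ Subgroup.normalizer (F : Set G)) {m : G → ℂ} (hm : m ∈ IrrS F) (hst : S ≤ stab m)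
    (π : S →* (ZMod p)ˣ) (hker : ∀ s : S, π s = 1 → (s : G) ∈ F) :
    ∃ Ψ ∈ IrrS S, ∀ x ∈ F, Ψ x = m x := by
  classical
  have hmem : ∀ x : S, x ∈ F.subgroupOf S ↔ (x : G) ∈ F := fun x => Subgroup.mem_subgroupOf
  have hN : (F.subgroupOf S).Normal := by
    constructor
    intro x hx g
    rw [hmem] at hx ⊢
    exact (Subgroup.mem_normalizer_iff.1 (hn g.2) (x : G)).1 hx
  have hcyc : IsCyclic (S ⧸ F.subgroupOf S) := by
    obtain ⟨⟨g0, hg0⟩, hgen⟩ := (inferInstance : IsCyclic π.range).exists_generator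
    obtain ⟨s0, rfl⟩ := hg0
    refine ⟨⟨QuotientGroup.mk s0, fun x => ?_⟩⟩
    induction x using QuotientGroup.induction_on with
    | H s =>
      obtain ⟨i, hi⟩ := hgen ⟨π s, ⟨s, rfl⟩⟩
      have hi' : (π s0) ^ i = π s := congrArg Subtype.val hi
      refine ⟨i, ?_⟩
      have h1 : π ((s0 ^ i)⁻¹ * s) = 1 := by
        rw [map_mul, map_inv, map_zpow, hi', inv_mul_cancel]
      have h2 : (s0 ^ i)⁻¹ * s ∈ F.subgroupOf S := (hmem _).2 (hker _ h1)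
      have h3 : (QuotientGroup.mk (s0 ^ i) : S ⧸ F.subgroupOf S) = QuotientGroup.mk s :=
        QuotientGroup.eq.2 h2
      rw [← h3]
      rfl
  have hθ : (fun s : S => m s) ∈ IrrS (F.subgroupOf S) := by
    refine ⟨irr_comp (Subgroup.subgroupOfEquivOfLe hF) hm.1, fun x hx => ?_⟩
    exact hm.2 _ (fun h => hx ((hmem x).2 h))
  have hinv : ∀ g : S, cnj g (fun s : S => m s) = fun s : S => m s := by
    intro g
    funext x
    exact congrFun (hst g.2) (x : G)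
  obtain ⟨χ, hχ, hχr⟩ := ext_cyclic (F.subgroupOf S) hcyc hθ hinv
  refine ⟨fun x => if h : x ∈ S then χ ⟨x, h⟩ else 0, ⟨?_, ?_⟩, ?_⟩
  · have h1 : (fun h : S => (if h' : (h : G) ∈ S then χ ⟨h, h'⟩ else 0)) = χ := by
      funext h
      rw [dif_pos h.2]
    rw [h1]
    exact hχ
  · intro x hx
    exact dif_neg hx
  · intro x hx
    change (if h : x ∈ S then χ ⟨x, h⟩ else 0) = m x
    rw [dif_pos (hF hx)]
    exact hχr ⟨x, hF hx⟩ ((hmem _).2 hx)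

/-- transitivity of lying over -/
private theorem ii_over {L M J : Subgroup G} (hLM : L ≤ M) (hMJ : M ≤ J) {χ θ ρ : G → ℂ}
    (hχ : χ ∈ IrrS J) (hθ : θ ∈ IrrS M) (hρ : ρ ∈ IrrS L) (h1 : ip M χ θ ≠ 0)
    (h2 : ip L θ ρ ≠ 0) : ip L χ ρ ≠ 0 := by
  have hfin : Finite (IrrS M) := irrS_finite M
  have := Fintype.ofFinite (IrrS M)
  rw [ip_trans hLM hMJ hχ, finsum_eq_sum_of_fintype]
  have hnat : ∀ t : IrrS M, ∃ n : ℕ, ip M χ t.1 * ip L t.1 ρ = n := by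
    intro t
    obtain ⟨a, ha⟩ := ip_res_nat hMJ hχ t.2
    obtain ⟨b, hb⟩ := ip_res_nat hLM t.2 hρ
    refine ⟨a * b, ?_⟩
    rw [ha, hb]
    push_cast
    rfl
  choose n hn using hnat
  rw [Finset.sum_congr rfl (fun t _ => hn t), ← Nat.cast_sum]
  intro h0
  have h3 : ∑ t : IrrS M, n t = 0 := by exact_mod_cast h0
  have h4 := (Finset.sum_eq_zero_iff.1 h3) ⟨θ, hθ⟩ (Finset.mem_univ _)
  have h5 := hn ⟨θ, hθ⟩
  rw [h4, Nat.cast_zero] at h5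
  exact (mul_ne_zero h1 h2) h5

/-- the scalar product only depends on the values on the subgroup -/
private theorem ii_ip_eq {L : Subgroup G} {χ ρ : G → ℂ} (hρ : ρ ∈ IrrS L)
    (h : ∀ x ∈ L, χ x = ρ x) : ip L χ ρ = 1 := by
  have h1 : ip L χ ρ = ip L ρ ρ := by
    unfold ip
    congr 1
    funext x
    exact h x.1 x.2
  rw [h1, ip_irrS hρ hρ, if_pos rfl]

variable [K.Normal]

private theorem ii_basic (hL : Loc p K Q H) {φ : G → ℂ} (hφ : φ ∈ IrrS H)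
    (h2 : Hyp2 p K Q H H2 φ) :
    (NN K Q ⊓ stab φ) ⊓ H2 = H ∧ H2 ≤ Subgroup.normalizer (Q : Set G) ⊓ stab φ ∧
      ∀ h ∈ H2, ∀ t ∈ NN K Q ⊓ stab φ, h * t * h⁻¹ ∈ NN K Q ⊓ stab φ := by
  have hH2S : H2 ≤ Subgroup.normalizer (Q : Set G) ⊓ stab φ := by
    have h1 : H2 ≤ Subgroup.centralizer (Q : Set G) ⊓ stab φ := by
      rw [h2.hcent]
      exact le_sup_right
    exact h1.trans (inf_le_inf_right _ (Subgroup.centralizer_le_normalizer _))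
  refine ⟨?_, hH2S, ?_⟩
  · apply le_antisymm
    · rw [← h2.hKH]
      exact inf_le_inf_right _ (inf_le_left.trans inf_le_left)
    · refine le_inf (le_inf (le_sup_right.trans (Loc.sup_le hL)) ?_) h2.hH
      intro x hx
      exact cnj_eq_self hx hφ
  · intro h hh t ht
    have h1 := hH2S hh
    refine ⟨⟨Subgroup.Normal.conj_mem inferInstance t ht.1.1 h, ?_⟩, ?_⟩
    · exact Subgroup.mul_mem _ (Subgroup.mul_mem _ h1.1 ht.1.2) (Subgroup.inv_mem _ h1.1)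
    · exact Subgroup.mul_mem _ (Subgroup.mul_mem _ h1.2 ht.2) (Subgroup.inv_mem _ h1.2)

theorem common_rho (hL : Loc p K Q H) {φ : G → ℂ} (hφ : φ ∈ IrrS H) (h2 : Hyp2 p K Q H H2 φ)
    (hP : Pkg p K Q H) (hP2 : Pkg p (K ⊔ H2) Q H2) {χh χ ξ : G → ℂ} (hχh : χh ∈ Irr G)
    (hχ : χ ∈ IrrSP p K) (hres : ∀ k ∈ K, χh k = χ k)
    (ha : ∀ lam ∈ IrrS Q, lam ≠ oneS Q → aa Q H χ lam φ ≠ 0)
    (hξ : ξ ∈ IrrS (NN K Q ⊓ stab φ)) (hξφ : ∀ x ∈ H, ξ x = φ x)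
    (hξi : ∀ s ∈ Subgroup.normalizer (Q : Set G) ⊓ stab φ, cnj s ξ = ξ) :
    ∃ ρ ∈ IrrS H2, (∀ x ∈ H, ρ x = φ x) ∧
      (∀ s ∈ Subgroup.normalizer (Q : Set G) ⊓ stab φ, cnj s ρ = ρ) ∧
      ∃ lam ∈ IrrS Q, aa Q H2 (rest (K ⊔ H2) χh) lam ρ ≠ 0 := by
  obtain ⟨hT, hH2S, hn⟩ := ii_basic hL hφ h2
  -- the extensions
  have hex : ∀ lam ∈ IrrS Q, lam ≠ oneS Q → ∃ ρ ∈ IrrS H2,
      aa Q H2 (rest (K ⊔ H2) χh) lam ρ ≠ 0 ∧ (∀ x ∈ H, ρ x = φ x) ∧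
      (∀ ρ' ∈ IrrS H2, aa Q H2 (rest (K ⊔ H2) χh) lam ρ' ≠ 0 → ip H ρ' φ ≠ 0 → ρ' = ρ) ∧
      ∀ t ∈ NN K Q ⊓ stab φ, cnj t ρ = ρ := by
    intro lam hl hl1
    obtain ⟨ρ, hρ, h3, h4, h5⟩ := uni hL hφ h2 hP hP2 hχh hχ hres hl (ha lam hl hl1)
    refine ⟨ρ, hρ, h3, h4, h5, fun t ht => ?_⟩
    refine glue_inv (T := NN K Q ⊓ stab φ) (H2 := H2) (H := H) (φ := φ) hT hn
      (fun t ht h hh => h2.hcomm t ht.1 h hh) hξ hρ hφ hξφ h4 (fun h hh => hξi h (hH2S hh)) ht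
  obtain ⟨l0, hl0, hl01⟩ := exists_ne_oneS hL
  obtain ⟨ρ, hρ, h3, h4, h5, h6⟩ := hex l0 hl0 hl01
  have hsame : ∀ lam ∈ IrrS Q, lam ≠ oneS Q → ∀ ρ' ∈ IrrS H2,
      aa Q H2 (rest (K ⊔ H2) χh) lam ρ' ≠ 0 → ip H ρ' φ ≠ 0 → ρ' = ρ := by
    intro lam hl hl1 ρ' hρ' ha' hip'
    obtain ⟨ρ1, hρ1, h3', h4', h5', -⟩ := hex lam hl hl1
    have e1 := h5' ρ' hρ' ha' hip'
    obtain ⟨t, ht, ht1, ht2⟩ := uni_orb hL hφ h2 hP2 hχh hχ hres hl0 hl hρ hρ1 h3 h3' h4 h4'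
    have e2 := h6 t ⟨ht, ht1⟩
    rw [e1, ← ht2, e2]
  have hip : ip H ρ φ ≠ 0 := by
    rw [ii_ip_eq hφ h4]
    exact one_ne_zero
  refine ⟨ρ, hρ, h4, ?_, l0, hl0, h3⟩
  intro s hs
  obtain ⟨k1, k2, k3⟩ := uni_conj hL hφ h2 hχh hρ h3 hip hs
  exact hsame _ (cnj_mem_irrS hs.1 hl0) (cnj_ne_oneS hs.1 hl01) _ k3 k1 k2

theorem caseII (hL : Loc p K Q H) {φ : G → ℂ} (hφ : φ ∈ IrrS H) (h2 : Hyp2 p K Q H H2 φ)
    (hP : Pkg p K Q H) (hPN : Pkg p (NN K Q) Q H) (hP2 : Pkg p (K ⊔ H2) Q H2)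
    {χh χ ψ : G → ℂ} (hχh : χh ∈ Irr G)
    (hχ : χ ∈ IrrSP p K) (hres : ∀ k ∈ K, χh k = χ k) (hψ : ψ ∈ IrrSP p (NN K Q))
    (hB : Bl Q H ψ φ) (hinv : ∀ a ∈ Subgroup.normalizer (Q : Set G), cnj a ψ = ψ)
    (hq : QKer (NN K Q) Q ψ) (ha : ∀ lam ∈ IrrS Q, lam ≠ oneS Q → aa Q H χ lam φ ≠ 0) :
    ∃ f ∈ IrrS (Subgroup.normalizer (Q : Set G)), (∀ n ∈ NN K Q, f n = ψ n) ∧
      ∃ ρ ∈ IrrS H2, ip H2 f ρ ≠ 0 ∧ ip H2 χh ρ ≠ 0 := by
  obtain ⟨hT, hH2S, hn⟩ := ii_basic hL hφ h2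
  obtain ⟨ξ, hξ, hξφ, hξψ, hξi, hdegψ, huniq⟩ := exists_xi hL hφ hPN hψ hB hq hinv
  obtain ⟨ρ, hρ, hρφ, hρi, lam, hl, hal⟩ :=
    common_rho hL hφ h2 hP hP2 hχh hχ hres ha hξ hξφ hξi
  obtain ⟨m, hm, hmT, hmH2, hmi⟩ := glue_exists (T := NN K Q ⊓ stab φ) (H2 := H2) (H := H)
    (φ := φ) hT hn (fun t ht h hh => h2.hcomm t ht.1 h hh) hξ hρ hφ hξφ hρφ
    (fun h hh => hξi h (hH2S hh))
  have hKn : Subgroup.normalizer (K : Set G) = ⊤ := Subgroup.normalizer_eq_top K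
  have hTS : NN K Q ⊓ stab φ ≤ Subgroup.normalizer (Q : Set G) ⊓ stab φ :=
    inf_le_inf_right _ inf_le_right
  have hnT : ∀ s ∈ Subgroup.normalizer (Q : Set G) ⊓ stab φ,
      s ∈ Subgroup.normalizer ((NN K Q ⊓ stab φ : Subgroup G) : Set G) := by
    have key : ∀ s ∈ Subgroup.normalizer (Q : Set G) ⊓ stab φ, ∀ t ∈ NN K Q ⊓ stab φ,
        s * t * s⁻¹ ∈ NN K Q ⊓ stab φ := by
      intro s h1 t ht
      refine ⟨⟨Subgroup.Normal.conj_mem inferInstance t ht.1.1 s, ?_⟩, ?_⟩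
      · exact Subgroup.mul_mem _ (Subgroup.mul_mem _ h1.1 ht.1.2) (Subgroup.inv_mem _ h1.1)
      · exact Subgroup.mul_mem _ (Subgroup.mul_mem _ h1.2 ht.2) (Subgroup.inv_mem _ h1.2)
    intro s hs
    rw [Subgroup.mem_normalizer_iff]
    intro t
    refine ⟨key s hs t, fun h => ?_⟩
    have h1 := key s⁻¹ (Subgroup.inv_mem _ hs) _ h
    have e : s⁻¹ * (s * t * s⁻¹) * s⁻¹⁻¹ = t := by group
    rwa [e] at h1
  have hnH : ∀ s ∈ Subgroup.normalizer (Q : Set G) ⊓ stab φ,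
      s ∈ Subgroup.normalizer (H : Set G) := by
    intro s hs
    exact Pool.Agent.Helper97.S4.Loc.norm_H hL (by rw [hKn]; exact Subgroup.mem_top _) hs.1
  have hF : (NN K Q ⊓ stab φ) ⊔ H2 ≤ Subgroup.normalizer (Q : Set G) ⊓ stab φ :=
    sup_le hTS hH2S
  have hnF : Subgroup.normalizer (Q : Set G) ⊓ stab φ ≤
      Subgroup.normalizer (((NN K Q ⊓ stab φ) ⊔ H2 : Subgroup G) : Set G) := by
    intro s hs
    exact Subgroup.normalizer_inf_normalizer_le_normalizer_sup _ _ ⟨hnT s hs, h2.hnorm s hs⟩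
  have hst : Subgroup.normalizer (Q : Set G) ⊓ stab φ ≤ stab m := by
    intro s hs
    exact hmi s (hnT s hs) (h2.hnorm s hs) (hnH s hs) (hξi s hs) (hρi s hs)
  obtain ⟨π0, hπ0⟩ := exists_piQ (p := p) Q hL.cQ
  have hQT : Q ≤ NN K Q ⊓ stab φ := by
    refine le_inf (le_sup_left.trans (Loc.sup_le hL)) ?_
    have h1 : Q ≤ Subgroup.centralizer (Q : Set G) ⊓ stab φ := by
      rw [h2.hcent]
      exact le_sup_left
    exact h1.trans inf_le_right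
  obtain ⟨Ψ, hΨ, hΨm⟩ := ext_cyclic_rel (p := p) hF hnF hm hst
    (π0.comp (Subgroup.inclusion inf_le_left)) (by
      intro s hs
      have h1 : ((Subgroup.inclusion (inf_le_left :
        Subgroup.normalizer (Q : Set G) ⊓ stab φ ≤ Subgroup.normalizer (Q : Set G)) s :
          Subgroup.normalizer (Q : Set G)) : G) ∈ Subgroup.centralizer (Q : Set G) :=
        (hπ0 _).1 hs
      have h3 : (s : G) ∈ Q ⊔ H2 := by
        rw [← h2.hcent]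
        exact ⟨h1, s.2.2⟩
      exact (sup_le_sup_right hQT H2) h3)
  have hΨT : ∀ x ∈ NN K Q ⊓ stab φ, Ψ x = ξ x := by
    intro x hx
    rw [hΨm x ((le_sup_left : NN K Q ⊓ stab φ ≤ (NN K Q ⊓ stab φ) ⊔ H2) hx), hmT x hx]
  have hΨH2 : ∀ x ∈ H2, Ψ x = ρ x := by
    intro x hx
    rw [hΨm x ((le_sup_right : H2 ≤ (NN K Q ⊓ stab φ) ⊔ H2) hx), hmH2 x hx]
  have hipψ : ip H ψ φ ≠ 0 := by
    obtain ⟨l1, hl1, hne⟩ := hB
    have h1 : l1 ≠ oneS Q := by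
      rintro rfl
      exact hne (aa_oneS Q H ψ φ)
    rw [aa_qker hL hq hl1 h1] at hne
    exact neg_ne_zero.1 hne
  have hdegΨ : deg Ψ = deg φ := by
    have h1 : Ψ 1 = φ 1 := by
      rw [hΨT 1 (Subgroup.one_mem _), hξφ 1 (Subgroup.one_mem _)]
    have h3 := irrS_deg hφ
    rw [← h1] at h3
    exact deg_eq h3
  have hidx : (Subgroup.normalizer (Q : Set G) ⊓ stab φ).relIndex
      (Subgroup.normalizer (Q : Set G)) = (NN K Q ⊓ stab φ).relIndex (NN K Q) := by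
    rw [relIndex_of_prod (A := Subgroup.normalizer (Q : Set G))
      (S := Subgroup.normalizer (Q : Set G) ⊓ stab φ) (N := NN K Q) inf_le_left inf_le_right
      (fun a haA => prod_stab hL hφ hψ.1 hipψ hinv haA)]
    congr 1
    rw [← inf_assoc]
    congr 1
    exact inf_eq_left.2 inf_le_right
  obtain ⟨f, hf, hfΨ, hfψ⟩ := ext_by_deg (A := Subgroup.normalizer (Q : Set G))
    (S := Subgroup.normalizer (Q : Set G) ⊓ stab φ) (N := NN K Q) (D := NN K Q ⊓ stab φ)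
    inf_le_left inf_le_right hTS inf_le_left hΨ hψ.1 hξ hΨT huniq
    (by rw [hidx, hdegΨ, hdegψ])
  refine ⟨f, hf, hfψ, ρ, hρ, ?_, ip_of_aa h2.hL2 hχh hl hρ hal⟩
  refine ii_over hH2S inf_le_left hf hΨ hρ hfΨ ?_
  rw [ii_ip_eq hρ hΨH2]
  exact one_ne_zero

end Pool.Agent.Helper42.IR.E
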