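import Pool.Agent.Helper97.S4.Clif

/-!
# IR-43 (project IR, section 5.1): elements acting as scalars

`Sc S f c z`: `f (s c) = z f(s)` for `s ∈ S`. For the character `f` of a representation `ρ` of `S` which is
irreducible, and `c ∈ S`, this says that `ρ c` is the scalar `z` (`tr (ρ s (ρ c - z)) = 0` for all `s ∈ S`
and the `ρ s` span the endomorphisms; or use `schur_trace` in INC/Schur.lean).

* `sc_irr`: `f ∈ IrrS A` with representation `ρ` whose restriction to `N` is irreducible, `c ∈ A`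
  centralizes `N`: `ρ c` commutes with `ρ N`, so it is a scalar `z ≠ 0` (invertible).
* `sc_const`: `ρ c = z` and `S ≤ A`, `c ∈ S`: an irreducible constituent of the restriction of `ρ` to `S`
  is (isomorphic to) a subrepresentation, on which `c` acts as `z`. Character version: let `σ` on `W`
  afford `r`, `ip S f r ≠ 0`. There is a nonzero intertwining map `σ → ρ|_S` (or: for
  `avgMap` of INC/Schur.lean some `L` has `avgMap L ≠ 0` as the trace of such averages computes
  `ip S f r`), which is injective (irreducible), so `σ c = z`.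
* `sc_one`: take `s = 1`.
* `sc_conj`: `f` a class function under `a`: `Sc` for `c` gives `Sc` for `a⁻¹ c a`.
* `sc_mult`: conversely if `f|_L` is a multiple of `r` with `r ∈ IrrS L`, `f ∈ IrrS S`, `L ≤ S`, `c ∈ L`
  and `Sc L r c z` then `Sc S f c z`: `ρ|_L` is a sum of copies of the representation of `r`, on which
  `c` acts as `z` (or: `tr(ρ c) = z tr 1` with `ρ c` of finite order, `|z| = 1`; the simplest:
  `E = ρ c - z` satisfies `tr (ρ l E) = 0` for all `l ∈ L`, in particular `tr ((ρ c)⁻¹ E) = 0`,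
  `tr E = 0`; so `∑` of squared absolute values of the eigenvalues of `E` vanishes, as `ρ c` is
  diagonalizable with eigenvalues of absolute value one: `∑ |μ - z|² = ∑ (2 - 2 Re(μ⁻¹ z)) = 0`).
-/

namespace Pool.Agent.Helper42.IR.E

open Pool.Agent.Helper42.INC Pool.Agent.Helper42.IR

/-- `c` acts as the scalar `z` -/
def Sc {G : Type} [Group G] (S : Subgroup G) (f : G → ℂ) (c : G) (z : ℂ) : Prop :=
  ∀ s ∈ S, f (s * c) = z * f s

variable {G : Type} [Group G] [Finite G]

/-- a linear map with `tr (A E) = 0` for all `A` vanishes -/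
private lemma eq_zero_of_trace {V : Type} [AddCommGroup V] [Module ℂ V] [FiniteDimensional ℂ V]
    (E : V →ₗ[ℂ] V) (h : ∀ A : V →ₗ[ℂ] V, LinearMap.trace ℂ V (A ∘ₗ E) = 0) : E = 0 := by
  classical
  ext v
  rw [LinearMap.zero_apply]
  apply (Module.finBasis ℂ V).repr.injective
  rw [map_zero]
  ext i
  rw [Finsupp.zero_apply]
  have h1 := h (LinearMap.smulRight ((Module.finBasis ℂ V).coord i) v)
  have h2 : (LinearMap.smulRight ((Module.finBasis ℂ V).coord i) v) ∘ₗ E =
      LinearMap.smulRight ((Module.finBasis ℂ V).coord i ∘ₗ E) v := by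
    ext w
    simp
  rw [h2, LinearMap.trace_smulRight] at h1
  simpa using h1

/-- the trace form of an irreducible representation is nondegenerate -/
private lemma eq_zero_of_irr {M : Type} [Group M] [Finite M] {V : Type} [AddCommGroup V]
    [Module ℂ V] [FiniteDimensional ℂ V] (ρ : Representation ℂ M V) [hρ : ρ.IsIrreducible]
    (E : V →ₗ[ℂ] V) (h : ∀ m, LinearMap.trace ℂ V (ρ m ∘ₗ E) = 0) : E = 0 := by
  have := Fintype.ofFinite M
  apply eq_zero_of_trace
  intro A
  have h1 := schur_trace ρ A E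
  rw [Finset.sum_eq_zero (fun m _ => by rw [h m, mul_zero])] at h1
  have h2 := finrank_ne_zero_of_irr ρ
  have h3 : (Nat.card M : ℂ) ≠ 0 := by exact_mod_cast Nat.card_pos.ne'
  exact (mul_eq_zero.1 h1.symm).resolve_left (div_ne_zero h3 h2)

/-- if `f` is the character of an irreducible `ρ` and `f (s c) = z f(s)` then `ρ c = z` -/
private lemma scalar_of {M : Type} [Group M] [Finite M] {V : Type} [AddCommGroup V]
    [Module ℂ V] [FiniteDimensional ℂ V] (ρ : Representation ℂ M V) [hρ : ρ.IsIrreducible]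
    (c : M) (z : ℂ) (h : ∀ s, ρ.character (s * c) = z * ρ.character s) :
    ρ c = z • LinearMap.id := by
  rw [← sub_eq_zero]
  apply eq_zero_of_irr ρ
  intro m
  have h1 : ρ m ∘ₗ (ρ c - z • LinearMap.id) = ρ (m * c) - z • ρ m := by
    rw [map_mul]
    ext v
    simp
  rw [h1, map_sub, map_smul]
  have h2 := h m
  change LinearMap.trace ℂ V (ρ (m * c)) = z * LinearMap.trace ℂ V (ρ m) at h2
  rw [h2, smul_eq_mul, sub_self]

/-- if `ρ c = z` then `f (s c) = z f(s)` -/
private lemma of_scalar {M : Type} [Group M] {V : Type} [AddCommGroup V]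
    [Module ℂ V] [FiniteDimensional ℂ V] (ρ : Representation ℂ M V)
    (c : M) (z : ℂ) (h : ρ c = z • LinearMap.id) (s : M) :
    ρ.character (s * c) = z * ρ.character s := by
  change LinearMap.trace ℂ V (ρ (s * c)) = z * LinearMap.trace ℂ V (ρ s)
  rw [map_mul, h]
  have h1 : ρ s * (z • LinearMap.id) = z • ρ s := by
    ext v
    simp
  rw [h1, map_smul, smul_eq_mul]

theorem sc_one {S : Subgroup G} {f : G → ℂ} {c : G} {z : ℂ} (h : Sc S f c z) :
    f c = z * f 1 := by
  have h1 := h 1 S.one_mem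
  rwa [one_mul] at h1

theorem sc_irr {A N : Subgroup G} (hN : N ≤ A) {f ψ : G → ℂ} (hf : f ∈ IrrS A)
    (hψ : ψ ∈ IrrS N) (hres : ∀ n ∈ N, f n = ψ n) {c : G} (hcA : c ∈ A)
    (hc : c ∈ Subgroup.centralizer (N : Set G)) : ∃ z : ℂ, z ≠ 0 ∧ Sc A f c z := by
  classical
  obtain ⟨V, _, _, _, ρ, hρ, hρf⟩ := hf.1
  have hnt : Nontrivial V := ((isIrreducible_iff ρ).1 hρ).1
  set τ : Representation ℂ N V := ρ.comp (Subgroup.inclusion hN) with hτ
  have hchar : τ.character = fun n : N => ψ n := by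
    funext n
    have h1 := congrFun hρf (Subgroup.inclusion hN n)
    rw [← hres n n.2]
    exact h1.symm
  have hfin : Module.finrank ℂ (Representation.IntertwiningMap τ τ) = 1 := by
    have := Fintype.ofFinite N
    have h1 : B τ.character τ.character = 1 := by
      rw [hchar]
      exact B_irr_self hψ.1
    rw [B_eq, Representation.card_inv_mul_sum_char_mul_char_eq_finrank] at h1
    exact_mod_cast h1
  let I : Representation.IntertwiningMap τ τ := ⟨LinearMap.id, fun g => by
    rw [LinearMap.id_comp, LinearMap.comp_id]⟩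
  have hI : I ≠ 0 := by
    intro h0
    obtain ⟨v, hv⟩ := exists_ne (0 : V)
    apply hv
    have h1 : I.toLinearMap v = (0 : Representation.IntertwiningMap τ τ).toLinearMap v := by
      rw [h0]
    exact h1
  let F : Representation.IntertwiningMap τ τ := ⟨ρ ⟨c, hcA⟩, fun g => by
    change ρ ⟨c, hcA⟩ * ρ (Subgroup.inclusion hN g) = ρ (Subgroup.inclusion hN g) * ρ ⟨c, hcA⟩
    rw [← map_mul, ← map_mul]
    congr 1
    apply Subtype.ext
    exact (Subgroup.mem_centralizer_iff.1 hc g.1 g.2).symm⟩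
  obtain ⟨z, hz⟩ := (finrank_eq_one_iff_of_nonzero' I hI).1 hfin F
  have hz1 : ρ ⟨c, hcA⟩ = z • LinearMap.id := by
    have h1 : (z • I).toLinearMap = F.toLinearMap := by rw [hz]
    exact h1.symm
  refine ⟨z, ?_, ?_⟩
  · intro h0
    rw [h0, zero_smul] at hz1
    obtain ⟨v, hv⟩ := exists_ne (0 : V)
    apply hv
    have h1 : (ρ (⟨c, hcA⟩⁻¹ * ⟨c, hcA⟩)) v = v := by
      rw [inv_mul_cancel, map_one]
      rfl
    rw [map_mul, hz1, mul_zero, LinearMap.zero_apply] at h1
    exact h1.symm
  · intro s hs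
    have h1 := of_scalar ρ ⟨c, hcA⟩ z hz1 ⟨s, hs⟩
    rw [← hρf] at h1
    exact h1

theorem sc_const {A S : Subgroup G} (hS : S ≤ A) {f r : G → ℂ} (hf : f ∈ IrrS A)
    (hr : r ∈ IrrS S) (hip : ip S f r ≠ 0) {c : G} (hc : c ∈ S) {z : ℂ} (h : Sc A f c z) :
    Sc S r c z := by
  classical
  obtain ⟨V, _, _, _, ρ, hρ, hρf⟩ := hf.1
  obtain ⟨W, _, _, _, σ, hσ, hσr⟩ := hr.1
  set τ : Representation ℂ S V := ρ.comp (Subgroup.inclusion hS) with hτ
  have hchar : τ.character = fun n : S => f n := by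
    funext n
    have h1 := congrFun hρf (Subgroup.inclusion hS n)
    exact h1.symm
  have hρc : ρ ⟨c, hS hc⟩ = z • LinearMap.id := by
    apply scalar_of
    intro s
    rw [← hρf]
    exact h s.1 s.2
  have hfin : Module.finrank ℂ (Representation.IntertwiningMap σ τ) ≠ 0 := by
    have := Fintype.ofFinite S
    intro h0
    apply hip
    unfold ip
    rw [hσr, ← hchar, B_eq, Representation.card_inv_mul_sum_char_mul_char_eq_finrank, h0]
    simp
  have hex : ∃ F : Representation.IntertwiningMap σ τ, F ≠ 0 := by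
    by_contra hcon
    push Not at hcon
    apply hfin
    have : Subsingleton (Representation.IntertwiningMap σ τ) :=
      ⟨fun a b => by rw [hcon a, hcon b]⟩
    exact Module.finrank_zero_of_subsingleton
  obtain ⟨F, hF⟩ := hex
  have hFc : ∀ g w, F.toLinearMap (σ g w) = τ g (F.toLinearMap w) := fun g w =>
    LinearMap.congr_fun (F.isIntertwining' g) w
  have hker : LinearMap.ker F.toLinearMap = ⊥ := by
    rcases ((isIrreducible_iff σ).1 hσ).2 (LinearMap.ker F.toLinearMap) (fun g v hv => by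
      rw [LinearMap.mem_ker] at hv ⊢
      rw [hFc, hv, map_zero]) with h1 | h1
    · exact h1
    · exfalso
      apply hF
      apply Representation.IntertwiningMap.toLinearMap_injective
      exact LinearMap.ker_eq_top.1 h1
  have hσc : σ ⟨c, hc⟩ = z • LinearMap.id := by
    ext w
    apply LinearMap.ker_eq_bot.1 hker
    rw [hFc]
    have h1 : τ ⟨c, hc⟩ = z • LinearMap.id := hρc
    rw [h1]
    simp
  intro s hs
  have h1 := of_scalar σ ⟨c, hc⟩ z hσc ⟨s, hs⟩
  rw [← hσr] at h1
  exact h1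

theorem sc_mult {S L : Subgroup G} (hL : L ≤ S) {f r : G → ℂ} (hf : f ∈ IrrS S)
    (hr : r ∈ IrrS L) {m : ℂ} (hres : ∀ l ∈ L, f l = m * r l) {c : G} (hc : c ∈ L) {z : ℂ}
    (h : Sc L r c z) : Sc S f c z := by
  classical
  obtain ⟨V, _, _, _, ρ, hρ, hρf⟩ := hf.1
  have hr1 : r 1 ≠ 0 := Pool.Agent.Helper97.S4.irrS_one_ne hr
  have hpow : ∀ k : ℕ, r (c ^ k) = z ^ k * r 1 := by
    intro k
    induction k with
    | zero => simp
    | succ k ih =>
      rw [pow_succ, h _ (L.pow_mem hc k), ih, pow_succ]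
      ring
  set n := orderOf c with hn
  have hn0 : 0 < n := orderOf_pos c
  have hzn : z ^ n = 1 := by
    have h1 := hpow n
    rw [hn, pow_orderOf_eq_one] at h1
    have h2 : (z ^ n - 1) * r 1 = 0 := by
      rw [sub_mul, one_mul, sub_eq_zero]
      exact h1.symm
    exact sub_eq_zero.1 ((mul_eq_zero.1 h2).resolve_right hr1)
  have hz0 : z ≠ 0 := by
    rintro rfl
    rw [zero_pow hn0.ne'] at hzn
    exact zero_ne_one hzn
  set C : V →ₗ[ℂ] V := ρ ⟨c, hL hc⟩ with hC
  have hCk : ∀ k : ℕ, LinearMap.trace ℂ V (C ^ k) = m * (z ^ k * r 1) := by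
    intro k
    have h1 : C ^ k = ρ ⟨c ^ k, S.pow_mem (hL hc) k⟩ := by
      rw [hC, ← map_pow]
      rfl
    have h2 := congrFun hρf ⟨c ^ k, S.pow_mem (hL hc) k⟩
    change f (c ^ k) = LinearMap.trace ℂ V (ρ ⟨c ^ k, S.pow_mem (hL hc) k⟩) at h2
    rw [h1, ← h2, hres _ (L.pow_mem hc k), hpow]
  have hCn : C ^ n = 1 := by
    have h1 : C ^ n = ρ (⟨c, hL hc⟩ ^ n) := by
      rw [hC, ← map_pow]
    have h2 : (⟨c, hL hc⟩ : S) ^ n = 1 := by
      apply Subtype.ext
      exact pow_orderOf_eq_one c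
    rw [h1, h2, map_one]
  set D : V →ₗ[ℂ] V := z⁻¹ • C with hD
  have hDk : ∀ k : ℕ, D ^ k = (z⁻¹) ^ k • C ^ k := fun k => by rw [hD, smul_pow]
  have hDn : D ^ n = 1 := by
    rw [hDk, hCn, inv_pow, hzn, inv_one, one_smul]
  have hDtr : ∀ k : ℕ, LinearMap.trace ℂ V (D ^ k) = m * r 1 := by
    intro k
    rw [hDk, map_smul, hCk, smul_eq_mul, inv_pow]
    have : z ^ k ≠ 0 := pow_ne_zero k hz0
    field_simp
  have htr1 : LinearMap.trace ℂ V (1 : V →ₗ[ℂ] V) = m * r 1 := by
    have h1 := hDtr 0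
    rwa [pow_zero] at h1
  set T : V →ₗ[ℂ] V := ∑ i ∈ Finset.range n, D ^ i with hT
  have hn1 : (n : ℂ) ≠ 0 := by exact_mod_cast hn0.ne'
  have hDT : D * T = T := by
    have h1 := mul_geom_sum D n
    rw [hDn, sub_self, sub_mul, one_mul, sub_eq_zero] at h1
    exact h1
  have hDkT : ∀ k : ℕ, D ^ k * T = T := by
    intro k
    induction k with
    | zero => rw [pow_zero, one_mul]
    | succ k ih => rw [pow_succ, mul_assoc, hDT, ih]
  have hTT : T * T = (n : ℂ) • T := by
    have h1 : T * T = ∑ i ∈ Finset.range n, D ^ i * T := by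
      rw [← Finset.sum_mul]
    rw [h1, Finset.sum_congr rfl (fun k _ => hDkT k), Finset.sum_const, Finset.card_range,
      Nat.cast_smul_eq_nsmul]
  set P : V →ₗ[ℂ] V := (n : ℂ)⁻¹ • T with hP
  have hPP : P * P = P := by
    rw [hP, smul_mul_smul_comm, hTT, smul_smul]
    congr 1
    field_simp
  have hPtr : LinearMap.trace ℂ V P = m * r 1 := by
    rw [hP, map_smul, hT, map_sum, Finset.sum_congr rfl (fun k _ => hDtr k), Finset.sum_const,
      Finset.card_range, nsmul_eq_mul, smul_eq_mul]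
    field_simp
  have hQ : IsIdempotentElem (1 - P) := by
    have : IsIdempotentElem P := hPP
    exact this.one_sub
  have hQ0 : 1 - P = 0 := by
    apply LinearMap.IsIdempotentElem.eq_zero_of_trace_eq_zero hQ
    rw [map_sub, htr1, hPtr, sub_self]
  have hP1 : P = 1 := (sub_eq_zero.1 hQ0).symm
  have hD1 : D = 1 := by
    have h1 : D * P = P := by
      rw [hP, mul_smul_comm, hDT]
    rwa [hP1, mul_one] at h1
  have hCz : C = z • LinearMap.id := by
    have h1 : z • D = C := by
      rw [hD, smul_smul, mul_inv_cancel₀ hz0, one_smul]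
    rw [← h1, hD1]
    rfl
  intro s hs
  have h1 := of_scalar ρ ⟨c, hL hc⟩ z hCz ⟨s, hs⟩
  rw [← hρf] at h1
  exact h1

end Pool.Agent.Helper42.IR.E
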