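import Pool.Agent.Helper97.S4.Clif

/-!
# IR-44 (project IR, section 5.1): Clifford correspondence by counting degrees

* `sum_over`: `S ≤ A`, `Ψ` a function on `G`, `Ψ` vanishing off `S`: the sum over `f ∈ IrrS A` of
  `ip S f Ψ * f 1` equals `|A : S| Ψ 1`: `∑_f f(1) f(g) = |A| δ_{g,1}` on `A` (regular character; from
  `sum_deg_sq`/`expand` in INC/Basic).
* `exists_over`: all terms are nonnegative (`ip_res_nat`), the sum is positive, so some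
  `f` has `ip S f Ψ ≥ 1`, and `f 1 ≤ ip S f Ψ * f 1 ≤ |A : S| Ψ 1`.
* `cliff_corr` (`L` normalized by `J`, `φ ∈ IrrS L`, `T = J ⊓ stab φ`, `ξ ∈ IrrS T` over `φ`): exactly one
  `ψ ∈ IrrS J` is over `ξ`, and `ψ 1 = |J : T| ξ 1`, `ip T ψ ξ = 1`. Proof: `L ≤ T`, `ξ|_L = f φ` with
  `f = ip L ξ φ` (`cliff_inv`), so `ξ 1 = f φ 1`. Let `ψ ∈ IrrS J` with `m = ip T ψ ξ ≠ 0`. By
  `ip_trans`: `e = ip L ψ φ ≥ m f > 0`. By `clifford` and `ip_cnj_right` the constituents of `ψ|_L` are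
  the `|J : T|` conjugates of `φ`, all with multiplicity `e`: `ψ 1 = |J : T| e φ 1 ≥ |J : T| m ξ 1`.
  Now `∑_ψ m_ψ ψ 1 = |J : T| ξ 1` (`sum_over`) gives `∑_ψ m_ψ² ≤ 1`: one `ψ` with `m = 1`, and
  `ψ 1 = |J : T| ξ 1`.
* `cliff_inv`: `L ≤ J` normalized by `J`, `φ ∈ IrrS L` fixed by `J`, `χ ∈ IrrS J` over `φ`:
  `χ x = ip L χ φ * φ x` for `x ∈ L` (`expand_on` and `clifford`: `φ` is the only constituent).
* `ext_by_deg` (extension by comparing degrees): `S ≤ A`, `N ≤ A`, `Ψ ∈ IrrS S`, `ψ ∈ IrrS N`; `D ≤ S ⊓ N`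
  with `ζ ∈ IrrS D`, `Ψ = ζ` on `D`; `ψ` is the only character in `IrrS N` over `ζ`, and
  `|A : S| Ψ 1 ≤ ψ 1`. Then there is `f ∈ IrrS A` over `Ψ` with `f = ψ` on `N`. Proof: `f` from
  `exists_over`; `ip D f ζ ≥ ip S f Ψ > 0` (`ip_trans`, `ip D Ψ ζ = 1`); `ip_trans` for `D ≤ N ≤ A`: some
  `θ ∈ IrrS N` under `f` is over `ζ`; so `θ = ψ`; `f 1 ≤ |A : S| Ψ 1 ≤ ψ 1`, hence `f|_N = ψ` (the
  expansion of `f` on `N` contains `ψ` with coefficient at least one, and the degrees agree).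
-/

namespace Pool.Agent.Helper42.IR.E

open Pool.Agent.Helper42.INC Pool.Agent.Helper42.IR

variable {G : Type} [Group G] [Finite G]

open Pool.Agent.Helper97.S4

theorem sum_over {A S : Subgroup G} (hS : S ≤ A) {Ψ : G → ℂ} (hΨ : ∀ x, x ∉ S → Ψ x = 0) :
    ∑ᶠ f : IrrS A, ip S f.1 Ψ * f.1 1 = (S.relIndex A : ℂ) * Ψ 1 := by
  classical
  obtain ⟨e, he⟩ := exists_irrSEquiv A
  have iF := Fintype.ofFinite (Irr A)
  have hfin : Finite (IrrS A) := Finite.of_equiv _ e.symm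
  have iF2 := Fintype.ofFinite (IrrS A)
  have iA := Fintype.ofFinite A
  have iS := Fintype.ofFinite S
  set δ : A → ℂ := fun x => if x = 1 then (Nat.card A : ℂ) else 0 with hδ
  have hδc : IsClass δ := by
    intro g x
    simp only [hδ, conj_eq_one_iff]
  have hB : ∀ χ ∈ Irr A, B δ χ = χ 1 := by
    intro χ _
    rw [B_eq, Finset.sum_eq_single 1]
    · simp only [hδ, if_true, inv_one]
      rw [← mul_assoc, inv_mul_cancel₀, one_mul]
      exact_mod_cast Nat.card_pos.ne'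
    · intro x _ hx
      simp only [hδ, if_neg hx]
      simp
    · intro h
      exact absurd (Finset.mem_univ _) h
  have hexp := expand δ hδc
  have hres : (fun s : S => δ ⟨s, hS s.2⟩) =
      ∑ f : IrrS A, f.1 1 • (fun s : S => f.1 s) := by
    funext s
    have h1 := congrFun hexp ⟨s, hS s.2⟩
    rw [h1]
    simp only [Finset.sum_apply, Pi.smul_apply, smul_eq_mul]
    rw [← Equiv.sum_comp e]
    refine Finset.sum_congr rfl fun f _ => ?_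
    rw [hB _ (e f).2, he f]
    rfl
  have h2 : B (fun s : S => δ ⟨s, hS s.2⟩) (fun s : S => Ψ s) =
      ∑ f : IrrS A, f.1 1 * ip S f.1 Ψ := by
    rw [hres, B_sum_left]
    refine Finset.sum_congr rfl fun f _ => ?_
    rw [B_smul_left]
    rfl
  have h3 : B (fun s : S => δ ⟨s, hS s.2⟩) (fun s : S => Ψ s) =
      (Nat.card S : ℂ)⁻¹ * ((Nat.card A : ℂ) * Ψ 1) := by
    rw [B_eq, Finset.sum_eq_single 1]
    · congr 2
      · have h4 : (⟨((1 : S) : G), hS (1 : S).2⟩ : A) = 1 := rfl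
        simp only [hδ, h4, if_true]
      · rw [inv_one]
        rfl
    · intro x _ hx
      have h4 : (⟨(x : G), hS x.2⟩ : A) ≠ 1 := by
        intro h5
        apply hx
        have h6 := congrArg Subtype.val h5
        exact Subtype.ext h6
      simp only [hδ, if_neg h4, zero_mul]
    · intro h
      exact absurd (Finset.mem_univ _) h
  have hcard : Nat.card S * S.relIndex A = Nat.card A := by
    have h4 := Subgroup.relIndex_mul_relIndex (⊥ : Subgroup G) S A bot_le hS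
    rwa [Subgroup.relIndex_bot_left, Subgroup.relIndex_bot_left] at h4
  have hS0 : (Nat.card S : ℂ) ≠ 0 := by exact_mod_cast Nat.card_pos.ne'
  rw [finsum_eq_sum_of_fintype]
  calc ∑ f : IrrS A, ip S f.1 Ψ * f.1 1 = ∑ f : IrrS A, f.1 1 * ip S f.1 Ψ :=
        Finset.sum_congr rfl fun f _ => mul_comm _ _
    _ = (Nat.card S : ℂ)⁻¹ * ((Nat.card A : ℂ) * Ψ 1) := by rw [← h2, h3]
    _ = _ := by
        rw [← hcard]
        push_cast
        field_simp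

/-- natural number version of `sum_over` -/
private theorem sum_over_nat {A S : Subgroup G} (hS : S ≤ A) {Ψ : G → ℂ} (hΨ : Ψ ∈ IrrS S)
    [Fintype (IrrS A)] : ∃ n : IrrS A → ℕ, (∀ f, ip S f.1 Ψ = n f) ∧
      ∑ f, n f * deg f.1 = S.relIndex A * deg Ψ := by
  choose n hn using fun f : IrrS A => ip_res_nat hS f.2 hΨ
  refine ⟨n, hn, ?_⟩
  have h1 := sum_over hS hΨ.2
  rw [finsum_eq_sum_of_fintype, irrS_deg hΨ] at h1
  have h2 : ((∑ f, n f * deg f.1 : ℕ) : ℂ) = ((S.relIndex A * deg Ψ : ℕ) : ℂ) := by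
    push_cast
    rw [← h1]
    refine Finset.sum_congr rfl fun f _ => ?_
    rw [hn f, irrS_deg f.2]
  exact_mod_cast h2

/-- decomposition of the degree -/
private theorem deg_res {L K : Subgroup G} (hLK : L ≤ K) {χ : G → ℂ} (hχ : χ ∈ IrrS K)
    [Fintype (IrrS L)] : ∃ n : IrrS L → ℕ, (∀ ρ, ip L χ ρ.1 = n ρ) ∧
      deg χ = ∑ ρ, n ρ * deg ρ.1 := by
  choose n hn using fun ρ : IrrS L => ip_res_nat hLK hχ ρ.2
  refine ⟨n, hn, ?_⟩
  have h1 := expand_on (L := L) (f := χ)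
    (fun y hy x _ => irrS_conj (hLK hy) hχ x) L.one_mem
  rw [finsum_eq_sum_of_fintype, irrS_deg hχ] at h1
  have h2 : ((deg χ : ℕ) : ℂ) = ((∑ ρ, n ρ * deg ρ.1 : ℕ) : ℂ) := by
    push_cast
    rw [h1]
    refine Finset.sum_congr rfl fun ρ _ => ?_
    rw [hn ρ, irrS_deg ρ.2]
  exact_mod_cast h2

private theorem deg_pos' {K : Subgroup G} {χ : G → ℂ} (hχ : χ ∈ IrrS K) : 0 < deg χ := by
  have h1 := irrS_one_ne hχ
  rw [irrS_deg hχ] at h1
  rcases Nat.eq_zero_or_pos (deg χ) with h | h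
  · rw [h] at h1
    exact absurd Nat.cast_zero h1
  · exact h

private theorem trans_le {L T J : Subgroup G} (hLT : L ≤ T) (hTJ : T ≤ J) {ψ ξ φ : G → ℂ}
    (hψ : ψ ∈ IrrS J) (hξ : ξ ∈ IrrS T) (hφ : φ ∈ IrrS L) {m f e : ℕ} (hm : ip T ψ ξ = m)
    (hf : ip L ξ φ = f) (he : ip L ψ φ = e) : m * f ≤ e := by
  classical
  have iF := (irrS_finite T).fintype
  choose a ha using fun θ : IrrS T => ip_res_nat hTJ hψ θ.2
  choose b hb using fun θ : IrrS T => ip_res_nat hLT θ.2 hφ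
  have h1 := ip_trans hLT hTJ hψ φ
  rw [finsum_eq_sum_of_fintype, he] at h1
  have h2 : ((e : ℕ) : ℂ) = ((∑ θ, a θ * b θ : ℕ) : ℂ) := by
    push_cast
    rw [h1]
    refine Finset.sum_congr rfl fun θ _ => ?_
    rw [ha θ, hb θ]
  have h3 : e = ∑ θ, a θ * b θ := by exact_mod_cast h2
  have h4 : a ⟨ξ, hξ⟩ = m := by
    have := ha ⟨ξ, hξ⟩
    rw [hm] at this
    exact_mod_cast this.symm
  have h5 : b ⟨ξ, hξ⟩ = f := by
    have := hb ⟨ξ, hξ⟩
    rw [hf] at this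
    exact_mod_cast this.symm
  rw [h3, ← h4, ← h5]
  exact Finset.single_le_sum (f := fun θ : IrrS T => a θ * b θ) (fun _ _ => Nat.zero_le _)
    (Finset.mem_univ (⟨ξ, hξ⟩ : IrrS T))

private theorem relIndex_pos' {A S : Subgroup G} : 0 < S.relIndex A := by
  rw [Nat.pos_iff_ne_zero]
  unfold Subgroup.relIndex
  exact Subgroup.index_ne_zero_of_finite

theorem exists_over {A S : Subgroup G} (hS : S ≤ A) {Ψ : G → ℂ} (hΨ : Ψ ∈ IrrS S) :
    ∃ f ∈ IrrS A, ip S f Ψ ≠ 0 ∧ deg f ≤ S.relIndex A * deg Ψ := by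
  classical
  have iF := (irrS_finite A).fintype
  obtain ⟨n, hn, hsum⟩ := sum_over_nat hS hΨ
  have hpos : 0 < S.relIndex A * deg Ψ := Nat.mul_pos relIndex_pos' (deg_pos' hΨ)
  obtain ⟨f, hf⟩ : ∃ f, n f ≠ 0 := by
    by_contra hcon
    push Not at hcon
    have : ∑ f, n f * deg f.1 = 0 := Finset.sum_eq_zero fun f _ => by rw [hcon f, zero_mul]
    omega
  refine ⟨f.1, f.2, ?_, ?_⟩
  · rw [hn f]
    exact_mod_cast hf
  · rw [← hsum]
    refine le_trans ?_ (Finset.single_le_sum (f := fun f : IrrS A => n f * deg f.1)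
      (fun _ _ => Nat.zero_le _) (Finset.mem_univ f))
    exact Nat.le_mul_of_pos_left _ (Nat.pos_of_ne_zero hf)

theorem cliff_inv {L J : Subgroup G} (hLJ : L ≤ J) (hn : J ≤ Subgroup.normalizer (L : Set G))
    {χ φ : G → ℂ} (hχ : χ ∈ IrrS J) (hφ : φ ∈ IrrS L) (hst : J ≤ stab φ)
    (h : ip L χ φ ≠ 0) {x : G} (hx : x ∈ L) : χ x = ip L χ φ * φ x := by
  rw [expand_on (L := L) (f := χ) (fun y hy x _ => irrS_conj (hLJ hy) hχ x) hx]
  refine finsum_eq_single _ (⟨φ, hφ⟩ : IrrS L) fun ρ hρ => ?_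
  by_cases h0 : ip L χ ρ.1 = 0
  · rw [h0, zero_mul]
  · exfalso
    obtain ⟨k, hk, hkφ⟩ := clifford hLJ hn hχ hφ ρ.2 h h0
    have h1 : cnj k φ = φ := mem_stab.1 (hst hk)
    apply hρ
    apply Subtype.ext
    rw [← hkφ, h1]

/-- the constituents of `ψ` on `L` -/
private theorem deg_ge {L J : Subgroup G} (hLJ : L ≤ J)
    (hn : J ≤ Subgroup.normalizer (L : Set G)) {φ ψ : G → ℂ} (hφ : φ ∈ IrrS L)
    (hψ : ψ ∈ IrrS J) {e : ℕ} (he : ip L ψ φ = e) :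
    (J ⊓ stab φ).relIndex J * (e * deg φ) ≤ deg ψ := by
  classical
  have iF := (irrS_finite L).fintype
  obtain ⟨n, hn1, hdeg⟩ := deg_res hLJ hψ
  set O : Finset (IrrS L) := Finset.univ.filter (fun ρ => ∃ k ∈ J, cnj k φ = ρ.1) with hO
  have hOn : ∀ ρ ∈ O, n ρ * deg ρ.1 = e * deg φ := by
    intro ρ hρ
    rw [hO, Finset.mem_filter] at hρ
    obtain ⟨k, hk, hkρ⟩ := hρ.2
    have h1 : n ρ = e := by
      have h2 := hn1 ρ
      rw [← hkρ, ip_cnj_right hn hψ hk φ, he] at h2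
      exact_mod_cast h2.symm
    rw [h1, ← hkρ, deg_cnj]
  have hcard : (J ⊓ stab φ).relIndex J ≤ O.card := by
    have h1 : (J ⊓ stab φ).relIndex J = Nat.card (J ⧸ (J ⊓ stab φ).subgroupOf J) := rfl
    have h2 : O.card = Nat.card {ρ : IrrS L // ρ ∈ O} := by
      rw [Nat.card_eq_fintype_card, Fintype.card_coe]
    rw [h1, h2]
    have hmem : ∀ q : J ⧸ (J ⊓ stab φ).subgroupOf J, cnj ((q.out : J) : G) φ ∈ IrrS L :=
      fun q => cnj_mem_irrS (hn q.out.2) hφ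
    refine Nat.card_le_card_of_injective (fun q => (⟨⟨cnj ((q.out : J) : G) φ, hmem q⟩, ?_⟩ :
      {ρ : IrrS L // ρ ∈ O})) ?_
    · rw [hO, Finset.mem_filter]
      exact ⟨Finset.mem_univ _, _, q.out.2, rfl⟩
    · intro q q' hq
      have h3 : cnj ((q.out : J) : G) φ = cnj ((q'.out : J) : G) φ := by
        have h4 := congrArg (fun z : {ρ : IrrS L // ρ ∈ O} => z.1.1) hq
        exact h4
      have h5 : (q.out)⁻¹ * q'.out ∈ (J ⊓ stab φ).subgroupOf J := by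
        rw [Subgroup.mem_subgroupOf, Subgroup.mem_inf]
        refine ⟨((q.out)⁻¹ * q'.out).2, ?_⟩
        rw [mem_stab]
        have h6 : (((q.out)⁻¹ * q'.out : J) : G) = ((q.out : J) : G)⁻¹ * ((q'.out : J) : G) := rfl
        rw [h6, ← cnj_cnj, ← h3, cnj_inv_cnj]
      have h7 := QuotientGroup.eq.2 h5
      rw [QuotientGroup.out_eq', QuotientGroup.out_eq'] at h7
      exact h7
  rw [hdeg]
  calc (J ⊓ stab φ).relIndex J * (e * deg φ) ≤ O.card * (e * deg φ) :=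
        Nat.mul_le_mul_right _ hcard
    _ = ∑ ρ ∈ O, n ρ * deg ρ.1 := by
        rw [Finset.sum_congr rfl hOn, Finset.sum_const, smul_eq_mul]
    _ ≤ _ := Finset.sum_le_sum_of_subset (Finset.subset_univ _)

theorem cliff_corr {L J : Subgroup G} (hLJ : L ≤ J) (hn : J ≤ Subgroup.normalizer (L : Set G))
    {φ ξ : G → ℂ} (hφ : φ ∈ IrrS L) (hξ : ξ ∈ IrrS (J ⊓ stab φ)) (h : ip L ξ φ ≠ 0) {ψ : G → ℂ}
    (hψ : ψ ∈ IrrS J) (hip : ip (J ⊓ stab φ) ψ ξ ≠ 0) :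
    deg ψ = (J ⊓ stab φ).relIndex J * deg ξ ∧ ip (J ⊓ stab φ) ψ ξ = 1 ∧
      ∀ ψ' ∈ IrrS J, ip (J ⊓ stab φ) ψ' ξ ≠ 0 → ψ' = ψ := by
  classical
  set T := J ⊓ stab φ with hT
  set R := T.relIndex J with hR
  have hTJ : T ≤ J := inf_le_left
  have hLT : L ≤ T := by
    refine le_inf hLJ fun x hx => ?_
    rw [mem_stab]
    exact cnj_eq_self hx hφ
  have hTn : T ≤ Subgroup.normalizer (L : Set G) := hTJ.trans hn
  obtain ⟨f, hf⟩ := ip_res_nat hLT hξ hφ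
  have hdξ : deg ξ = f * deg φ := by
    have h1 := cliff_inv hLT hTn hξ hφ inf_le_right h L.one_mem
    rw [irrS_deg hξ, irrS_deg hφ, hf] at h1
    exact_mod_cast h1
  have hge : ∀ ψ' ∈ IrrS J, ∀ m : ℕ, ip T ψ' ξ = m → R * (m * deg ξ) ≤ deg ψ' := by
    intro ψ' hψ' m hm
    obtain ⟨e, he⟩ := ip_res_nat hLJ hψ' hφ
    have h1 := trans_le hLT hTJ hψ' hξ hφ hm hf he
    have h2 := deg_ge hLJ hn hφ hψ' he
    refine le_trans ?_ h2
    apply Nat.mul_le_mul_left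
    rw [hdξ, ← mul_assoc]
    exact Nat.mul_le_mul_right _ h1
  have iF := (irrS_finite J).fintype
  obtain ⟨n, hn1, hsum⟩ := sum_over_nat hTJ hξ
  have hdξ0 := deg_pos' hξ
  have hR0 : 0 < R := relIndex_pos'
  have hRd : 0 < R * deg ξ := Nat.mul_pos hR0 hdξ0
  have hψn : n ⟨ψ, hψ⟩ ≠ 0 := by
    intro h0
    apply hip
    have := hn1 ⟨ψ, hψ⟩
    rw [h0] at this
    simpa using this
  have hterm : n ⟨ψ, hψ⟩ * deg ψ ≤ R * deg ξ := by
    rw [← hsum]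
    exact Finset.single_le_sum (f := fun f : IrrS J => n f * deg f.1)
      (fun _ _ => Nat.zero_le _) (Finset.mem_univ (⟨ψ, hψ⟩ : IrrS J))
  have hgeψ := hge ψ hψ _ (hn1 ⟨ψ, hψ⟩)
  have hgeψ' : n ⟨ψ, hψ⟩ * (R * deg ξ) ≤ deg ψ := by
    calc n ⟨ψ, hψ⟩ * (R * deg ξ) = R * (n ⟨ψ, hψ⟩ * deg ξ) := by ring
      _ ≤ _ := hgeψ
  have hn1' : 1 ≤ n ⟨ψ, hψ⟩ := Nat.one_le_iff_ne_zero.2 hψn
  have hdψ : deg ψ = R * deg ξ := by
    apply le_antisymm
    · exact le_trans (Nat.le_mul_of_pos_left _ hn1') hterm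
    · exact le_trans (Nat.le_mul_of_pos_left _ hn1') hgeψ'
  have hnψ : n ⟨ψ, hψ⟩ = 1 := by
    rw [hdψ] at hterm
    have h1 : n ⟨ψ, hψ⟩ * (R * deg ξ) ≤ 1 * (R * deg ξ) := by rw [one_mul]; exact hterm
    have h2 := Nat.le_of_mul_le_mul_right h1 hRd
    omega
  refine ⟨hdψ, ?_, ?_⟩
  · rw [hn1 ⟨ψ, hψ⟩, hnψ]
    exact Nat.cast_one
  · intro ψ' hψ' hip'
    by_contra hne
    have hne' : (⟨ψ, hψ⟩ : IrrS J) ≠ ⟨ψ', hψ'⟩ := by
      intro h0
      exact hne (congrArg Subtype.val h0).symm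
    have h1 : n ⟨ψ, hψ⟩ * deg ψ + n ⟨ψ', hψ'⟩ * deg ψ' ≤ R * deg ξ := by
      rw [← hsum]
      have h2 := Finset.sum_pair hne' (f := fun f : IrrS J => n f * deg f.1)
      rw [← h2]
      exact Finset.sum_le_sum_of_subset (Finset.subset_univ _)
    have h3 : n ⟨ψ', hψ'⟩ ≠ 0 := by
      intro h0
      apply hip'
      have := hn1 ⟨ψ', hψ'⟩
      rw [h0] at this
      simpa using this
    have h4 : 0 < n ⟨ψ', hψ'⟩ * deg ψ' := Nat.mul_pos (Nat.pos_of_ne_zero h3) (deg_pos' hψ')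
    rw [hnψ, hdψ, one_mul] at h1
    omega

/-- comparison of degrees -/
private theorem res_eq_of_deg {A N : Subgroup G} (hN : N ≤ A) {f ψ : G → ℂ} (hf : f ∈ IrrS A)
    (hψ : ψ ∈ IrrS N) (h : ip N f ψ ≠ 0) (hd : deg f ≤ deg ψ) {x : G} (hx : x ∈ N) :
    f x = ψ x := by
  classical
  have iF := (irrS_finite N).fintype
  obtain ⟨n, hn, hdeg⟩ := deg_res hN hf
  have hψ0 := deg_pos' hψ
  have hnψ : n ⟨ψ, hψ⟩ ≠ 0 := by
    intro h0
    apply h
    have := hn ⟨ψ, hψ⟩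
    rw [h0] at this
    simpa using this
  have hterm : n ⟨ψ, hψ⟩ * deg ψ ≤ deg f := by
    rw [hdeg]
    exact Finset.single_le_sum (f := fun ρ : IrrS N => n ρ * deg ρ.1)
      (fun _ _ => Nat.zero_le _) (Finset.mem_univ (⟨ψ, hψ⟩ : IrrS N))
  have hn1 : n ⟨ψ, hψ⟩ = 1 := by
    have h1 : n ⟨ψ, hψ⟩ * deg ψ ≤ 1 * deg ψ := by
      rw [one_mul]
      exact hterm.trans hd
    have h2 := Nat.le_of_mul_le_mul_right h1 hψ0
    omega
  have hzero : ∀ ρ : IrrS N, ρ ≠ ⟨ψ, hψ⟩ → n ρ = 0 := by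
    intro ρ hρ
    by_contra h0
    have h1 : n ρ * deg ρ.1 + n ⟨ψ, hψ⟩ * deg ψ ≤ deg f := by
      rw [hdeg]
      have h2 := Finset.sum_pair hρ (f := fun ρ : IrrS N => n ρ * deg ρ.1)
      rw [← h2]
      exact Finset.sum_le_sum_of_subset (Finset.subset_univ _)
    have h4 : 0 < n ρ * deg ρ.1 := Nat.mul_pos (Nat.pos_of_ne_zero h0) (deg_pos' ρ.2)
    rw [hn1, one_mul] at h1
    omega
  rw [expand_on (L := N) (f := f) (fun y hy x _ => irrS_conj (hN hy) hf x) hx]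
  rw [finsum_eq_single _ (⟨ψ, hψ⟩ : IrrS N)]
  · rw [hn ⟨ψ, hψ⟩, hn1]
    simp
  · intro ρ hρ
    rw [hn ρ, hzero ρ hρ]
    simp

theorem ext_by_deg {A S N D : Subgroup G} (hS : S ≤ A) (hN : N ≤ A) (hDS : D ≤ S) (hDN : D ≤ N)
    {Ψ ψ ζ : G → ℂ} (hΨ : Ψ ∈ IrrS S) (hψ : ψ ∈ IrrS N) (hζ : ζ ∈ IrrS D)
    (hres : ∀ x ∈ D, Ψ x = ζ x) (huniq : ∀ θ ∈ IrrS N, ip D θ ζ ≠ 0 → θ = ψ)
    (hdeg : S.relIndex A * deg Ψ ≤ deg ψ) :
    ∃ f ∈ IrrS A, ip S f Ψ ≠ 0 ∧ ∀ n ∈ N, f n = ψ n := by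
  classical
  obtain ⟨f, hf, hfΨ, hfd⟩ := exists_over hS hΨ
  refine ⟨f, hf, hfΨ, ?_⟩
  obtain ⟨m, hm⟩ := ip_res_nat hS hf hΨ
  obtain ⟨e, he⟩ := ip_res_nat (hDS.trans hS) hf hζ
  have h1 : ip D Ψ ζ = ((1 : ℕ) : ℂ) := by
    have h2 : ip D Ψ ζ = ip D ζ ζ := by
      unfold ip
      congr 1
      funext x
      exact hres x x.2
    rw [h2, ip_irrS hζ hζ, if_pos rfl]
    exact Nat.cast_one.symm
  have h3 := trans_le hDS hS hf hΨ hζ hm h1 he
  have hm0 : m ≠ 0 := by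
    intro h0
    apply hfΨ
    rw [hm, h0]
    exact Nat.cast_zero
  have he0 : ip D f ζ ≠ 0 := by
    rw [he]
    have : e ≠ 0 := by omega
    exact_mod_cast this
  have h4 : ip N f ψ ≠ 0 := by
    intro h0
    apply he0
    rw [ip_trans hDN hN hf ζ]
    have h5 : ∀ θ : IrrS N, ip N f θ.1 * ip D θ.1 ζ = 0 := by
      intro θ
      by_cases h6 : ip D θ.1 ζ = 0
      · rw [h6, mul_zero]
      · rw [huniq θ.1 θ.2 h6, h0, zero_mul]
    rw [finsum_congr h5, finsum_zero]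
  intro n hn
  exact res_eq_of_deg hN hf hψ h4 (hfd.trans hdeg) hn

end Pool.Agent.Helper42.IR.E
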