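import Pool.Agent.Helper42.IR.E.Grp
import Pool.Agent.Helper42.IR.E.CliffC
import Pool.Agent.Helper97.S4.Loc1

/-!
# IR-45 (project IR, section 5.1): the extensions of `φ` below `χ`

`G` finite, `K` normal, `Loc p K Q H`, `Hyp2 p K Q H H2 φ`, `K2 = K ⊔ H2`. `χh ∈ Irr G` restricts to
`χ ∈ IrrSP p K`; `χ2` is the restriction of `χh` to `K2` (zero off `K2`): `χ2 ∈ IrrSP p K2` (`rest_mem`:
its restriction to `K` is irreducible; a character with irreducible restriction is irreducible).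

`uni`: for `lam ∈ IrrS Q` with `aa Q H χ lam φ ≠ 0` there is exactly one `ρ ∈ IrrS H2` with
`aa Q H2 χ2 lam ρ ≠ 0` and `ip H ρ φ ≠ 0`, and `ρ = φ` on `H`. Proof: let `ε = ±1` be the sign of `χ2`
(`nice_K` for `K2`: `Nice.sgn`; all `aa Q H2 χ2 lam ρ` are `0` or `ε`). As `χ2 = χ` on `K ⊇ Q H`,
`aa Q H χ lam φ = aa Q H χ2 lam φ = ∑_ρ aa Q H2 χ2 lam ρ * ip H ρ φ` (`aa_expand_H` with `J = K2`), which is
`ε` times the sum of the natural numbers `ip H ρ φ` over the `ρ` with `aa Q H2 χ2 lam ρ ≠ 0`; and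
`aa Q H χ lam φ = ±1` (`nice_K` for `K`). So exactly one `ρ` contributes and `ip H ρ φ = 1`. As `H2`
fixes `φ` and normalizes `H` (`hcomm`, or `hKH` and `K` normal), `ρ = 1 * φ` on `H` by `cliff_inv`.

`uni_conj`: for `s ∈ N(Q) ⊓ stab φ`: `ρ' = cnj s ρ` satisfies `aa Q H2 χ2 (cnj s lam) ρ' ≠ 0` and
`ip H ρ' φ ≠ 0` (`s` normalizes `K2`, `H2`, `H`, `Q`; `cnj s χ2 = χ2` as `χh` is a class function on `G`;
`aa_cnj`, `ip_cnj`, `cnj s φ = φ`).

`uni_orb`: for two pairs `(lam, ρ)`, `(lam', ρ')` with `aa Q H2 χ2 ≠ 0`, `ρ = φ = ρ'` on `H`, there is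
`t ∈ NN K Q` with `cnj t φ = φ` and `cnj t ρ = ρ'`: `Pkg.unb` for `K2` gives `g ∈ NN K2 Q` with
`cnj g ρ = ρ'`, `g = t h`, `h ∈ H2` fixes `ρ`; so `cnj t ρ = ρ'`, and restricting to `H` (normalized by
`t`): `cnj t φ = φ`.
-/



namespace Pool.Agent.Helper42.IR.E

open Pool.Agent.Helper42.INC Pool.Agent.Helper42.IR

variable {G : Type} [Group G] [Finite G] {p : ℕ} [Fact p.Prime] {K Q H H2 : Subgroup G}
  [K.Normal]

open Classical in
/-- restriction of a function to a subgroup -/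
noncomputable def rest (L : Subgroup G) (f : G → ℂ) : G → ℂ := fun x => if x ∈ L then f x else 0

omit [Finite G] in
private lemma rest_of_mem {L : Subgroup G} (f : G → ℂ) {x : G} (hx : x ∈ L) :
    rest L f x = f x := if_pos hx

omit [Finite G] in
private lemma rest_of_not_mem {L : Subgroup G} (f : G → ℂ) {x : G} (hx : x ∉ L) :
    rest L f x = 0 := if_neg hx

private lemma unisum_one {ι : Type*} [Fintype ι] (n : ι → ℕ) (h : ∑ i, n i = 1) :
    ∃ i, n i = 1 ∧ ∀ j, n j ≠ 0 → j = i := by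
  classical
  have h1 : ∃ i, n i ≠ 0 := by
    by_contra hcon
    push Not at hcon
    rw [Finset.sum_eq_zero (fun i _ => hcon i)] at h
    exact zero_ne_one h
  obtain ⟨i, hi⟩ := h1
  have h2 := Finset.add_sum_erase Finset.univ n (Finset.mem_univ i)
  refine ⟨i, ?_, ?_⟩
  · omega
  · intro j hj
    by_contra hne
    have h3 : n j ≤ ∑ x ∈ Finset.univ.erase i, n x :=
      Finset.single_le_sum (f := n) (fun _ _ => Nat.zero_le _)
        (Finset.mem_erase.2 ⟨hne, Finset.mem_univ j⟩)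
    omega

private lemma unisum_deg {ι : Type*} [Fintype ι] (n d : ι → ℕ) (i : ι) (hi : n i ≠ 0)
    (hd : ∀ j, 0 < d j) (h : ∑ j, n j * d j ≤ d i) : n i = 1 ∧ ∀ j, j ≠ i → n j = 0 := by
  classical
  have h2 := Finset.add_sum_erase Finset.univ (fun j => n j * d j) (Finset.mem_univ i)
  have hdi := hd i
  have h4 : d i ≤ n i * d i := Nat.le_mul_of_pos_left _ (Nat.pos_of_ne_zero hi)
  have h5 : n i * d i ≤ 1 * d i := by
    have h2' : n i * d i + ∑ x ∈ Finset.univ.erase i, n x * d x = ∑ j, n j * d j := h2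
    omega
  refine ⟨?_, ?_⟩
  · have := Nat.le_of_mul_le_mul_right h5 hdi
    omega
  · intro j hj
    have h3 : n j * d j ≤ ∑ x ∈ Finset.univ.erase i, n x * d x :=
      Finset.single_le_sum (f := fun j => n j * d j) (fun _ _ => Nat.zero_le _)
        (Finset.mem_erase.2 ⟨hj, Finset.mem_univ j⟩)
    have h2' : n i * d i + ∑ x ∈ Finset.univ.erase i, n x * d x = ∑ j, n j * d j := h2
    have h6 : n j * d j = 0 := by omega
    rcases Nat.mul_eq_zero.1 h6 with h7 | h7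
    · exact h7
    · exact absurd h7 (hd j).ne'

private lemma uni_top {χh : G → ℂ} (hχh : χh ∈ Irr G) : χh ∈ IrrS (⊤ : Subgroup G) := by
  refine ⟨irr_comp (Subgroup.topEquiv : (⊤ : Subgroup G) ≃* G) hχh, ?_⟩
  intro x hx
  exact absurd (Subgroup.mem_top x) hx

theorem rest_mem {L : Subgroup G} (hKL : K ≤ L) {χh χ : G → ℂ} (hχh : χh ∈ Irr G)
    (hχ : χ ∈ IrrSP p K) (hres : ∀ k ∈ K, χh k = χ k) : rest L χh ∈ IrrSP p L := by
  classical
  have hT : χh ∈ IrrS (⊤ : Subgroup G) := uni_top hχh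
  have := (Pool.Agent.Helper97.S4.irrS_finite L).fintype
  have := (Pool.Agent.Helper97.S4.irrS_finite K).fintype
  have hn0 : ∀ θ : IrrS L, ∃ n : ℕ, ip L χh θ.1 = n := fun θ =>
    Pool.Agent.Helper97.S4.ip_res_nat le_top hT θ.2
  have hm0 : ∀ θ : IrrS L, ∃ n : ℕ, ip K θ.1 χ = n := fun θ =>
    Pool.Agent.Helper97.S4.ip_res_nat hKL θ.2 hχ.1
  choose n hn using hn0
  choose m hm using hm0
  have hipK : ip K χh χ = 1 := by
    have h1 : ip K χh χ = ip K χ χ := by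
      unfold ip
      congr 1
      funext k
      exact hres k k.2
    rw [h1, Pool.Agent.Helper97.S4.ip_irrS hχ.1 hχ.1, if_pos rfl]
  have hsum : ∑ θ : IrrS L, n θ * m θ = 1 := by
    have h1 := Pool.Agent.Helper97.S4.ip_trans hKL (le_top : L ≤ ⊤) hT χ
    rw [hipK, finsum_eq_sum_of_fintype] at h1
    have h2 : ∀ θ : IrrS L, ip L χh θ.1 * ip K θ.1 χ = ((n θ * m θ : ℕ) : ℂ) := by
      intro θ
      rw [hn, hm]
      push_cast
      rfl
    rw [Finset.sum_congr rfl (fun θ _ => h2 θ), ← Nat.cast_sum] at h1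
    exact_mod_cast h1.symm
  obtain ⟨θ0, h0, _⟩ := unisum_one _ hsum
  have hn1 : n θ0 = 1 := Nat.eq_one_of_mul_eq_one_right h0
  have hm1 : m θ0 = 1 := Nat.eq_one_of_mul_eq_one_left h0
  -- degrees
  have hdegS : ∀ {M : Subgroup G} {f : G → ℂ}, f ∈ IrrS M → f 1 = (deg f : ℂ) ∧ 0 < deg f := by
    intro M f hf
    obtain ⟨k, hk, hk1⟩ := irr_one hf.1
    have hk2 : f 1 = (k : ℂ) := hk1
    have hk3 : deg f = k := deg_eq hk2
    rw [hk3]
    exact ⟨hk2, hk⟩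
  have hχ1 : χh 1 = χ 1 := hres 1 K.one_mem
  have hle : deg χ ≤ deg θ0.1 := by
    have h1 := Pool.Agent.Helper97.S4.expand_on (L := K) (f := θ0.1)
      (fun y hy x _ => Pool.Agent.Helper97.S4.irrS_conj (hKL hy) θ0.2 x) K.one_mem
    have hk0 : ∀ σ : IrrS K, ∃ k : ℕ, ip K θ0.1 σ.1 = k := fun σ =>
      Pool.Agent.Helper97.S4.ip_res_nat hKL θ0.2 σ.2
    choose k hk using hk0
    rw [finsum_eq_sum_of_fintype] at h1
    have h2 : ∀ σ : IrrS K, ip K θ0.1 σ.1 * σ.1 1 = ((k σ * deg σ.1 : ℕ) : ℂ) := by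
      intro σ
      rw [hk, (hdegS σ.2).1]
      push_cast
      rfl
    rw [Finset.sum_congr rfl (fun σ _ => h2 σ), ← Nat.cast_sum, (hdegS θ0.2).1] at h1
    have h3 : deg θ0.1 = ∑ σ : IrrS K, k σ * deg σ.1 := by exact_mod_cast h1
    rw [h3]
    have h4 : k ⟨χ, hχ.1⟩ = 1 := by
      have h5 := hk ⟨χ, hχ.1⟩
      rw [hm, hm1] at h5
      exact_mod_cast h5.symm
    calc deg χ = k ⟨χ, hχ.1⟩ * deg (⟨χ, hχ.1⟩ : IrrS K).1 := by rw [h4, one_mul]
      _ ≤ _ := Finset.single_le_sum (f := fun σ : IrrS K => k σ * deg σ.1)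
        (fun _ _ => Nat.zero_le _) (Finset.mem_univ _)
  have hexp : ∀ x ∈ L, χh x = ∑ θ : IrrS L, (n θ : ℂ) * θ.1 x := by
    intro x hx
    have h1 := Pool.Agent.Helper97.S4.expand_on (L := L) (f := χh)
      (fun y _ x _ => Pool.Agent.Helper97.S4.irrS_conj (K := ⊤) (Subgroup.mem_top y) hT x) hx
    rw [finsum_eq_sum_of_fintype] at h1
    rw [h1]
    refine Finset.sum_congr rfl fun θ _ => ?_
    rw [hn]
  have hdeg : ∑ θ : IrrS L, n θ * deg θ.1 ≤ deg θ0.1 := by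
    have h1 := hexp 1 L.one_mem
    have h2 : ∀ θ : IrrS L, (n θ : ℂ) * θ.1 1 = ((n θ * deg θ.1 : ℕ) : ℂ) := by
      intro θ
      rw [(hdegS θ.2).1]
      push_cast
      rfl
    rw [Finset.sum_congr rfl (fun θ _ => h2 θ), ← Nat.cast_sum, hχ1, (hdegS hχ.1).1] at h1
    have h3 : deg χ = ∑ θ : IrrS L, n θ * deg θ.1 := by exact_mod_cast h1
    rw [← h3]
    exact hle
  obtain ⟨_, hz⟩ := unisum_deg n (fun θ : IrrS L => deg θ.1) θ0 (by rw [hn1]; exact one_ne_zero)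
    (fun θ => (hdegS θ.2).2) hdeg
  have hfin : rest L χh = θ0.1 := by
    funext x
    by_cases hx : x ∈ L
    · rw [rest_of_mem _ hx, hexp x hx, Finset.sum_eq_single θ0]
      · rw [hn1, Nat.cast_one, one_mul]
      · intro θ _ hne
        rw [hz θ hne, Nat.cast_zero, zero_mul]
      · intro h
        exact absurd (Finset.mem_univ _) h
    · rw [rest_of_not_mem _ hx, θ0.2.2 x hx]
  refine ⟨?_, ?_⟩
  · rw [hfin]
    exact θ0.2
  · have h1 : deg (rest L χh) = deg χ := by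
      apply deg_eq
      rw [rest_of_mem _ L.one_mem, hχ1]
      exact (hdegS hχ.1).1
    rw [h1]
    exact hχ.2

omit [Finite G] in
private lemma uni_aa_congr [Finite G] {Q H : Subgroup G} {χ χ' : G → ℂ} (lam φ : G → ℂ)
    (h : ∀ x ∈ Q, ∀ y ∈ H, χ (x * y) = χ' (x * y)) : aa Q H χ lam φ = aa Q H χ' lam φ := by
  have := Fintype.ofFinite Q
  have := Fintype.ofFinite H
  unfold aa
  simp only [finsum_eq_sum_of_fintype]
  congr 1
  refine Finset.sum_congr rfl fun x _ => ?_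
  refine Finset.sum_congr rfl fun y _ => ?_
  rw [h x x.2 y y.2]

private lemma uni_normH {φ : G → ℂ} (h2 : Hyp2 p K Q H H2 φ) :
    H2 ≤ Subgroup.normalizer (H : Set G) := by
  intro a ha
  rw [Subgroup.mem_normalizer_iff]
  intro x
  rw [← h2.hKH, Subgroup.mem_inf, Subgroup.mem_inf]
  have e1 : x ∈ K ↔ a * x * a⁻¹ ∈ K :=
    ⟨fun h => Subgroup.Normal.conj_mem inferInstance _ h _, fun h => by
      have h3 := Subgroup.Normal.conj_mem (H := K) inferInstance _ h a⁻¹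
      have h4 : a⁻¹ * (a * x * a⁻¹) * a⁻¹⁻¹ = x := by group
      rwa [h4] at h3⟩
  have e2 : x ∈ H2 ↔ a * x * a⁻¹ ∈ H2 :=
    ⟨fun h => H2.mul_mem (H2.mul_mem ha h) (H2.inv_mem ha), fun h => by
      have h3 := H2.mul_mem (H2.mul_mem (H2.inv_mem ha) h) ha
      have h4 : a⁻¹ * (a * x * a⁻¹) * a = x := by group
      rwa [h4] at h3⟩
  rw [e1, e2]

theorem uni (hL : Loc p K Q H) {φ : G → ℂ} (hφ : φ ∈ IrrS H) (h2 : Hyp2 p K Q H H2 φ)
    (hP : Pkg p K Q H) (hP2 : Pkg p (K ⊔ H2) Q H2) {χh χ : G → ℂ} (hχh : χh ∈ Irr G)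
    (hχ : χ ∈ IrrSP p K) (hres : ∀ k ∈ K, χh k = χ k) {lam : G → ℂ} (hl : lam ∈ IrrS Q)
    (ha : aa Q H χ lam φ ≠ 0) :
    ∃ ρ ∈ IrrS H2, aa Q H2 (rest (K ⊔ H2) χh) lam ρ ≠ 0 ∧ (∀ x ∈ H, ρ x = φ x) ∧
      ∀ ρ' ∈ IrrS H2, aa Q H2 (rest (K ⊔ H2) χh) lam ρ' ≠ 0 → ip H ρ' φ ≠ 0 → ρ' = ρ := by
  classical
  have := (Pool.Agent.Helper97.S4.irrS_finite H2).fintype
  set χ2 : G → ℂ := rest (K ⊔ H2) χh with hχ2d
  have hχ2 : χ2 ∈ IrrSP p (K ⊔ H2) := rest_mem le_sup_left hχh hχ hres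
  obtain ⟨ε, hε, hs⟩ := (Pool.Agent.Helper97.S4.nice_K h2.hL2 hP2 hχ2).sgn
  obtain ⟨ε1, hε1, hs1⟩ := (Pool.Agent.Helper97.S4.nice_K hL hP hχ).sgn
  have hval : aa Q H χ lam φ = ε1 := by
    rcases hs1 φ hφ lam hl with h | h
    · exact absurd h ha
    · exact h
  have hHK : H ≤ K := fun x hx => (hL.HC hx).1
  have hc : aa Q H χ lam φ = aa Q H χ2 lam φ := by
    apply uni_aa_congr
    intro x hx y hy
    have hxy : x * y ∈ K := K.mul_mem (hL.QK hx) (hHK hy)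
    rw [hχ2d, rest_of_mem _ ((le_sup_left : K ≤ K ⊔ H2) hxy), hres _ hxy]
  have hexp := Pool.Agent.Helper97.S4.aa_expand_H (J := K ⊔ H2) (Q := Q) h2.hH h2.hL2.HC
    h2.hL2.QK hχ2.1 lam φ
  rw [finsum_eq_sum_of_fintype] at hexp
  have hn0 : ∀ ρ : IrrS H2, ∃ n : ℕ, ip H ρ.1 φ = n := fun ρ =>
    Pool.Agent.Helper97.S4.ip_res_nat h2.hH ρ.2 hφ
  choose n hn using hn0
  let m : IrrS H2 → ℕ := fun ρ => if aa Q H2 χ2 lam ρ.1 ≠ 0 then n ρ else 0
  have hterm : ∀ ρ : IrrS H2, aa Q H2 χ2 lam ρ.1 * ip H ρ.1 φ = ε * (m ρ : ℂ) := by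
    intro ρ
    by_cases h : aa Q H2 χ2 lam ρ.1 = 0
    · have h3 : m ρ = 0 := if_neg (by simpa using h)
      rw [h, h3, zero_mul, Nat.cast_zero, mul_zero]
    · have h3 : m ρ = n ρ := if_pos h
      rcases hs ρ.1 ρ.2 lam hl with h4 | h4
      · exact absurd h4 h
      · rw [h4, h3, hn]
  rw [Finset.sum_congr rfl (fun ρ _ => hterm ρ), ← Finset.mul_sum, ← Nat.cast_sum, ← hc, hval]
    at hexp
  have hm : ∑ ρ, m ρ = 1 := by
    revert hexp
    generalize ∑ ρ, m ρ = S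
    intro hexp
    rcases hε with h | h <;> rcases hε1 with h' | h' <;> rw [h, h'] at hexp
    · rw [one_mul] at hexp
      exact_mod_cast hexp.symm
    · exfalso
      have h3 : ((S + 1 : ℕ) : ℂ) = 0 := by
        push_cast
        linear_combination -hexp
      have h4 : S + 1 = 0 := by exact_mod_cast h3
      omega
    · exfalso
      have h3 : ((S + 1 : ℕ) : ℂ) = 0 := by
        push_cast
        linear_combination hexp
      have h4 : S + 1 = 0 := by exact_mod_cast h3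
      omega
    · have h3 : (S : ℂ) = 1 := by
        linear_combination hexp
      exact_mod_cast h3
  obtain ⟨ρ, hρ1, hρu⟩ := unisum_one m hm
  have hρa : aa Q H2 χ2 lam ρ.1 ≠ 0 := by
    intro h
    have h3 : m ρ = 0 := if_neg (by simpa using h)
    rw [h3] at hρ1
    exact zero_ne_one hρ1
  have hρn : n ρ = 1 := by
    have h3 : m ρ = n ρ := if_pos hρa
    rw [← h3]
    exact hρ1
  refine ⟨ρ.1, ρ.2, hρa, ?_, ?_⟩
  · intro x hx
    have h3 := cliff_inv h2.hH (uni_normH h2) ρ.2 hφ h2.hst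
      (by rw [hn, hρn, Nat.cast_one]; exact one_ne_zero) hx
    rw [h3, hn, hρn, Nat.cast_one, one_mul]
  · intro ρ' hρ' ha' hip
    have h3 : m ⟨ρ', hρ'⟩ = n ⟨ρ', hρ'⟩ := if_pos ha'
    have h4 : m ⟨ρ', hρ'⟩ ≠ 0 := by
      rw [h3]
      intro h5
      apply hip
      have h6 := hn ⟨ρ', hρ'⟩
      rw [h5, Nat.cast_zero] at h6
      exact h6
    exact congrArg Subtype.val (hρu _ h4)

theorem uni_conj (hL : Loc p K Q H) {φ : G → ℂ} (hφ : φ ∈ IrrS H) (h2 : Hyp2 p K Q H H2 φ)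
    {χh : G → ℂ} (hχh : χh ∈ Irr G) {lam ρ : G → ℂ} (hρ : ρ ∈ IrrS H2)
    (ha : aa Q H2 (rest (K ⊔ H2) χh) lam ρ ≠ 0) (hip : ip H ρ φ ≠ 0) {s : G}
    (hs : s ∈ Subgroup.normalizer (Q : Set G) ⊓ stab φ) :
    aa Q H2 (rest (K ⊔ H2) χh) (cnj s lam) (cnj s ρ) ≠ 0 ∧ ip H (cnj s ρ) φ ≠ 0 ∧
      cnj s ρ ∈ IrrS H2 := by
  have hsQ : s ∈ Subgroup.normalizer (Q : Set G) := hs.1
  have hsφ : cnj s φ = φ := hs.2
  have hs2 : s ∈ Subgroup.normalizer (H2 : Set G) := h2.hnorm s hs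
  have hsK : s ∈ Subgroup.normalizer (K : Set G) := by
    rw [Subgroup.normalizer_eq_top]
    exact Subgroup.mem_top s
  have hsH : s ∈ Subgroup.normalizer (H : Set G) := Pool.Agent.Helper97.S4.Loc.norm_H hL hsK hsQ
  have hsup : ∀ x : G, s⁻¹ * x * s ∈ K ⊔ H2 ↔ x ∈ K ⊔ H2 := by
    have hle : ∀ t : G, t ∈ Subgroup.normalizer (H2 : Set G) → ∀ x ∈ K ⊔ H2,
        t * x * t⁻¹ ∈ K ⊔ H2 := by
      intro t ht x hx
      obtain ⟨k, hk, h, hh, rfl⟩ := Subgroup.mem_sup_of_normal_left.1 hx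
      have e : t * (k * h) * t⁻¹ = (t * k * t⁻¹) * (t * h * t⁻¹) := by group
      rw [e]
      exact (K ⊔ H2).mul_mem
        ((le_sup_left : K ≤ K ⊔ H2) (Subgroup.Normal.conj_mem inferInstance _ hk _))
        ((le_sup_right : H2 ≤ K ⊔ H2) ((Subgroup.mem_normalizer_iff.1 ht h).1 hh))
    intro x
    constructor
    · intro hx
      have h3 := hle s hs2 _ hx
      have h4 : s * (s⁻¹ * x * s) * s⁻¹ = x := by group
      rwa [h4] at h3
    · intro hx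
      have h3 := hle s⁻¹ (inv_mem hs2) _ hx
      rwa [inv_inv] at h3
  have hinv : cnj s (rest (K ⊔ H2) χh) = rest (K ⊔ H2) χh := by
    funext x
    change rest (K ⊔ H2) χh (s⁻¹ * x * s) = rest (K ⊔ H2) χh x
    by_cases hx : x ∈ K ⊔ H2
    · rw [rest_of_mem _ hx, rest_of_mem _ ((hsup x).2 hx)]
      have h3 := Irr.isClass hχh s⁻¹ x
      rw [inv_inv] at h3
      exact h3
    · rw [rest_of_not_mem _ hx, rest_of_not_mem _ (fun h => hx ((hsup x).1 h))]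
  refine ⟨?_, ?_, Pool.Agent.Helper97.S4.cnj_mem_irrS hs2 hρ⟩
  · have h3 := Pool.Agent.Helper97.S4.aa_cnj hsQ hs2 (rest (K ⊔ H2) χh) lam ρ
    rw [hinv] at h3
    rw [h3]
    exact ha
  · have h3 := Pool.Agent.Helper97.S4.ip_cnj hsH ρ φ
    rw [hsφ] at h3
    rw [h3]
    exact hip

theorem uni_orb (hL : Loc p K Q H) {φ : G → ℂ} (hφ : φ ∈ IrrS H) (h2 : Hyp2 p K Q H H2 φ)
    (hP2 : Pkg p (K ⊔ H2) Q H2) {χh χ : G → ℂ} (hχh : χh ∈ Irr G)
    (hχ : χ ∈ IrrSP p K) (hres : ∀ k ∈ K, χh k = χ k) {lam lam' ρ ρ' : G → ℂ}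
    (hl : lam ∈ IrrS Q) (hl' : lam' ∈ IrrS Q) (hρ : ρ ∈ IrrS H2) (hρ' : ρ' ∈ IrrS H2)
    (ha : aa Q H2 (rest (K ⊔ H2) χh) lam ρ ≠ 0)
    (ha' : aa Q H2 (rest (K ⊔ H2) χh) lam' ρ' ≠ 0) (he : ∀ x ∈ H, ρ x = φ x)
    (he' : ∀ x ∈ H, ρ' x = φ x) : ∃ t ∈ NN K Q, cnj t φ = φ ∧ cnj t ρ = ρ' := by
  have hχ2 : rest (K ⊔ H2) χh ∈ IrrSP p (K ⊔ H2) := rest_mem le_sup_left hχh hχ hres
  obtain ⟨g, hg, hgρ⟩ := hP2.unb _ hχ2 ρ hρ ρ' hρ' ⟨lam, hl, ha⟩ ⟨lam', hl', ha'⟩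
  obtain ⟨t, ht, h, hh, rfl⟩ := h2.hNN g hg
  have h3 : cnj t ρ = ρ' := by
    rw [← hgρ, ← cnj_cnj, Pool.Agent.Helper97.S4.cnj_eq_self hh hρ]
  refine ⟨t, ht, ?_, h3⟩
  have htH := Pool.Agent.Helper97.S4.Loc.norm_H' hL ht
  funext x
  change φ (t⁻¹ * x * t) = φ x
  by_cases hx : x ∈ H
  · have h4 : t⁻¹ * x * t ∈ H := (Subgroup.mem_normalizer_iff''.1 htH x).1 hx
    rw [← he _ h4, ← he' _ hx, ← h3]
    rfl
  · rw [hφ.2 x hx]
    apply hφ.2
    intro h4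
    exact hx ((Subgroup.mem_normalizer_iff''.1 htH x).2 h4)

end Pool.Agent.Helper42.IR.E
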