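import Pool.Agent.Helper42.IR.E.CaseII
import Pool.Agent.Helper42.IR.E.Sc
import Pool.Agent.Helper42.IR.PkgSub

/-!
# IR-50 (project IR, section 5.1): Lemma E

`H2` from `exists_H2`; `Pkg` for `K`, `NN K Q` (`Loc.nn`), `K ⊔ H2` from `pkg_of_loc`. `Typ` gives the case:
`caseI` or `caseII` (`QKer` is the first condition of the second alternative of `Typ`). So there are `f` and
`ρ`. An irreducible character is a character: `f ∈ CharS A`. Let `c` centralize `K`; `c ∈ H2` (`hcK`),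
`H2 ≤ C(Q) ≤ A`. `sc_irr` for `χh` on `⊤` (as a function in `IrrS ⊤`) and `N = K`: `Sc ⊤ χh c z`; `sc_const`:
`Sc H2 ρ c z`. `sc_irr` for `f` on `A` and `N = NN K Q` (centralized by `c` as `NN K Q ≤ K`): `Sc A f c z'`;
`sc_const`: `Sc H2 ρ c z'`. As `ρ 1 ≠ 0`, `z = z'` (`sc_one`). So `f (a c) = z f a` and
`χh c = z χh 1 = z χ 1`.
-/

namespace Pool.Agent.Helper42.IR

open Pool.Agent.Helper42.INC Pool.Agent.Helper97.S4 E

theorem lemmaE {G : Type} [Group G] [Finite G] {p : ℕ} [Fact p.Prime] (hp2 : p ≠ 2)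
    (K Q H : Subgroup G) [K.Normal] (hL : Loc p K Q H) (hidx : ¬ p ∣ K.index)
    (hz : ¬ p ∣ Nat.card (Subgroup.center K)) {χh χ ψ φ : G → ℂ} (hχh : χh ∈ Irr G)
    (hχ : χ ∈ IrrSP p K) (hres : ∀ k ∈ K, χh k = χ k) (hφ : φ ∈ IrrS H) (hB : Bl Q H χ φ)
    (hψ : ψ ∈ IrrSP p (NN K Q)) (hBψ : Bl Q H ψ φ)
    (hinv : ∀ a ∈ Subgroup.normalizer (Q : Set G), cnj a ψ = ψ) (htyp : Typ K Q H χ ψ φ) :
    ∃ ψh ∈ CharS (Subgroup.normalizer (Q : Set G)), (∀ n ∈ NN K Q, ψh n = ψ n) ∧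
      ∀ c ∈ Subgroup.centralizer (K : Set G), ∀ a ∈ Subgroup.normalizer (Q : Set G),
        χ 1 * ψh (a * c) = ψh a * χh c := by
  obtain ⟨H2, h2⟩ := exists_H2 hL hidx hz hφ
  have hPK : Pkg p K Q H := pkg_of_loc hL hp2
  have hPN : Pkg p (NN K Q) Q H := pkg_of_loc (Pool.Agent.Helper97.S4.Loc.nn hL) hp2
  have hP2 : Pkg p (K ⊔ H2) Q H2 := pkg_of_loc h2.hL2 hp2
  obtain ⟨f, hf, hfres, ρ, hρ, hipf, hipχ⟩ :
      ∃ f ∈ IrrS (Subgroup.normalizer (Q : Set G)), (∀ n ∈ NN K Q, f n = ψ n) ∧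
        ∃ ρ ∈ IrrS H2, ip H2 f ρ ≠ 0 ∧ ip H2 χh ρ ≠ 0 := by
    rcases htyp with ⟨l0, hl, hl1, hex, ha⟩ | ⟨hq, ha⟩
    · exact caseI hL hφ h2 hPK hP2 hχh hχ hres hψ hinv hl hl1 hex ha
    · exact caseII hL hφ h2 hPK hPN hP2 hχh hχ hres hψ hBψ hinv hq ha
  have hcN : Subgroup.centralizer (Q : Set G) ≤ Subgroup.normalizer (Q : Set G) :=
    Subgroup.centralizer_le_normalizer _
  have hH2Q : H2 ≤ Subgroup.normalizer (Q : Set G) :=
    (h2.hL2.HC.trans inf_le_right).trans hcN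
  refine ⟨f, ?_, hfres, ?_⟩
  · refine ⟨?_, hf.2⟩
    obtain ⟨V, i1, i2, i3, τ, _, hτ⟩ := hf.1
    exact ⟨V, i1, i2, i3, τ, hτ⟩
  · intro c hc a ha
    have hcH2 : c ∈ H2 := h2.hcK hc
    have hχT : χh ∈ IrrS (⊤ : Subgroup G) := by
      refine ⟨?_, fun x hx => absurd (Subgroup.mem_top x) hx⟩
      exact irr_comp Subgroup.topEquiv hχh
    obtain ⟨z, hz0, hz1⟩ := sc_irr (A := (⊤ : Subgroup G)) (N := K) le_top hχT hχ.1 hres
      (Subgroup.mem_top c) hc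
    have hz2 := sc_const (A := (⊤ : Subgroup G)) (S := H2) le_top hχT hρ hipχ hcH2 hz1
    have hcNN : c ∈ Subgroup.centralizer ((NN K Q : Subgroup G) : Set G) :=
      Subgroup.centralizer_le (fun x hx => hx.1) hc
    obtain ⟨z', hz0', hz1'⟩ := sc_irr (A := Subgroup.normalizer (Q : Set G)) (N := NN K Q)
      inf_le_right hf hψ.1 hfres (hH2Q hcH2) hcNN
    have hz2' := sc_const hH2Q hf hρ hipf hcH2 hz1'
    have hρ1 : ρ 1 ≠ 0 := irrS_one_ne hρ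
    have hzz : z = z' := by
      have e1 := sc_one hz2
      have e2 := sc_one hz2'
      exact mul_right_cancel₀ hρ1 (e1.symm.trans e2)
    have e3 := sc_one hz1
    have e4 := hz1' a ha
    rw [e4, e3, hres 1 K.one_mem, ← hzz]
    ring

end Pool.Agent.Helper42.IR
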