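import Pool.Agent.Helper42.IR.LocFacts
import Pool.Agent.Helper97.S4.LocB

/-!
# IR-42 (project IR, section 5.1): the subgroup `H2 = H_φ`

`K` normal in `G` of index prime to `p`, `Loc p K Q H`, `p ∤ |Z(K)|`, `φ ∈ IrrS H`.

`|G|` is divisible by `p` but not by `p²`, so there is `Hh` with `Loc p ⊤ Q Hh` (`exists_loc` for
`K = ⊤`): `C_G(Q) = Q Hh`, `Hh` is the set of elements of `C_G(Q)` of order prime to `p`
(`Loc.mem_H_iff`). Put `H2 = Hh ⊓ stab φ`.
* `H ≤ Hh`; `H ≤ stab φ` (`φ` is a class function on `H` and vanishes off `H`). `K ⊓ Hh = H` (elements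
  of `K` centralizing `Q` of order prime to `p`).
* `centralizer K ≤ H2`: `c` centralizing `K` centralizes `Q` and `H` (so it fixes `φ`); its order is prime
  to `p`: otherwise a power `c'` of `c` has order `p`, `Q⟨c'⟩` is a `p`-group, so of order `p` as `p² ∤ |G|`,
  so `c' ∈ Q ≤ K` is an element of order `p` of the center of `K`.
* `Loc p (K ⊔ H2) Q H2`: an element of `(K ⊔ H2) ⊓ C(Q)` is `k h` (`K` is normal) with `h ∈ H2`, so
  `k ∈ K ⊓ C(Q) = Q H`.
* elements of `N(Q)` normalize `Hh` (`Loc.norm_H` for `⊤`), and elements of `stab φ` normalize `stab φ`.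
* `C(Q) ⊓ stab φ ≤ Q ⊔ H2`: `s = x h`, `x ∈ Q` fixes `φ`.
* `t ∈ NN K Q`, `h ∈ H2`: `t h t⁻¹ h⁻¹` is in `K` (normal) and in `Hh` (`t` normalizes `Hh`).
* an element `k h` of `NN (K ⊔ H2) Q` has `k ∈ NN K Q`.
-/

namespace Pool.Agent.Helper42.IR.E

open Pool.Agent.Helper42.INC Pool.Agent.Helper42.IR

/-- the properties of `H2` -/
structure Hyp2 {G : Type} [Group G] (p : ℕ) (K Q H H2 : Subgroup G) (φ : G → ℂ) : Prop where
  hH : H ≤ H2
  hst : H2 ≤ stab φ
  hKH : K ⊓ H2 = H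
  hcK : Subgroup.centralizer (K : Set G) ≤ H2
  hL2 : Loc p (K ⊔ H2) Q H2
  hnorm : ∀ s ∈ Subgroup.normalizer (Q : Set G) ⊓ stab φ, s ∈ Subgroup.normalizer (H2 : Set G)
  hcent : Subgroup.centralizer (Q : Set G) ⊓ stab φ = Q ⊔ H2
  hcomm : ∀ t ∈ NN K Q, ∀ h ∈ H2, t * h * t⁻¹ * h⁻¹ ∈ H
  hNN : ∀ g ∈ NN (K ⊔ H2) Q, ∃ n ∈ NN K Q, ∃ h ∈ H2, g = n * h

section aux

variable {G : Type} [Group G] [Finite G] {p : ℕ} [Fact p.Prime] {K Q H : Subgroup G}

/-- an element centralizing `H` fixes the functions vanishing off `H` -/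
private lemma grp_cent_stab {φ : G → ℂ} (hφ : ∀ x, x ∉ H → φ x = 0) {c : G}
    (hc : ∀ h ∈ H, h * c = c * h) : c ∈ stab φ := by
  rw [mem_stab]
  funext x
  rw [cnj_apply]
  by_cases hx : x ∈ H
  · have e : c⁻¹ * x * c = x := by
      rw [mul_assoc, hc x hx]
      group
    rw [e]
  · rw [hφ x hx]
    apply hφ
    intro h
    apply hx
    have e := hc _ h
    have e2 : x = c⁻¹ * x * c := by
      have h1 : c⁻¹ * x * c * c = x * c := by
        rw [e]; group
      exact (mul_right_cancel h1).symm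
    rw [e2]
    exact h

/-- the order of an ambient group containing `K` with index prime to `p` -/
private lemma grp_card (hpp : ¬ p ^ 2 ∣ Nat.card K) (hidx : ¬ p ∣ K.index) :
    ¬ p ^ 2 ∣ Nat.card G := by
  intro h
  rw [← K.card_mul_index] at h
  apply hpp
  have hp : p.Prime := Fact.out
  exact Nat.Coprime.dvd_of_dvd_mul_right
    (Nat.Coprime.pow_left 2 ((Nat.Prime.coprime_iff_not_dvd hp).mpr hidx)) h

private lemma grp_pow_p (cQ : Nat.card Q = p) {x : G} (hx : x ∈ Q) : x ^ p = 1 := by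
  have h := pow_card_eq_one' (G := Q) (x := ⟨x, hx⟩)
  rw [cQ] at h
  simpa using congrArg (Subtype.val) h

/-- elements centralizing `K` lie in the complement of `Q` in its centralizer -/
private lemma grp_cent {Hh : Subgroup G} (hL : Loc p K Q H) (hT : Loc p ⊤ Q Hh)
    (hz : ¬ p ∣ Nat.card (Subgroup.center K)) {c : G}
    (hc : c ∈ Subgroup.centralizer (K : Set G)) : c ∈ Hh := by
  have hp : p.Prime := Fact.out
  have hcK : ∀ k ∈ K, k * c = c * k := fun k hk => Subgroup.mem_centralizer_iff.mp hc k hk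
  have hcQ : c ∈ (⊤ : Subgroup G) ⊓ Subgroup.centralizer (Q : Set G) := by
    refine ⟨Subgroup.mem_top c, ?_⟩
    exact Subgroup.mem_centralizer_iff.mpr fun x hx => hcK x (hL.QK hx)
  have hcc := hcQ
  rw [← hT.sup] at hcQ
  obtain ⟨x, hx, h, hh, e⟩ := Pool.Agent.Helper97.S4.Loc.mem_sup hT |>.mp hcQ
  have hcomm : Commute x h := hT.comm x hx h hh
  have hm : ¬ p ∣ orderOf h := (hT.mem_H_iff.mp hh).2
  have hpow : c ^ orderOf h = x ^ orderOf h := by
    rw [e, hcomm.mul_pow, pow_orderOf_eq_one, mul_one]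
  have hxK : x ^ orderOf h ∈ K := K.pow_mem (hL.QK hx) _
  have hxc : (⟨x ^ orderOf h, hxK⟩ : K) ∈ Subgroup.center K := by
    rw [Subgroup.mem_center_iff]
    intro k
    apply Subtype.ext
    change (k : G) * x ^ orderOf h = x ^ orderOf h * (k : G)
    rw [← hpow]
    have hk : Commute (k : G) c := hcK k k.2
    exact hk.pow_right _
  have hx1 : x ^ orderOf h = 1 := by
    by_contra hne
    apply hz
    have ho : orderOf (x ^ orderOf h) = p := by
      rcases (Nat.dvd_prime hp).mp (orderOf_dvd_of_pow_eq_one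
        (grp_pow_p hL.cQ (Q.pow_mem hx (orderOf h)))) with h' | h'
      · exact absurd (orderOf_eq_one_iff.mp h') hne
      · exact h'
    have h1 : orderOf (⟨⟨x ^ orderOf h, hxK⟩, hxc⟩ : Subgroup.center K) = p := by
      rw [← ho, ← Subgroup.orderOf_coe, ← Subgroup.orderOf_coe]
    rw [← h1]
    exact orderOf_dvd_natCard _
  have hx2 : x = 1 := by
    have h1 : orderOf x ∣ orderOf h := orderOf_dvd_of_pow_eq_one hx1
    rcases (Nat.dvd_prime hp).mp (orderOf_dvd_of_pow_eq_one (grp_pow_p hL.cQ hx)) with h' | h'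
    · exact orderOf_eq_one_iff.mp h'
    · rw [h'] at h1
      exact absurd h1 hm
  rw [e, hx2, one_mul]
  exact hh

end aux

theorem exists_H2 {G : Type} [Group G] [Finite G] {p : ℕ} [Fact p.Prime] {K Q H : Subgroup G}
    [K.Normal] (hL : Loc p K Q H) (hidx : ¬ p ∣ K.index)
    (hz : ¬ p ∣ Nat.card (Subgroup.center K)) {φ : G → ℂ} (hφ : φ ∈ IrrS H) :
    ∃ H2 : Subgroup G, Hyp2 p K Q H H2 φ := by
  have hp : p.Prime := Fact.out
  have hGpp : ¬ p ^ 2 ∣ Nat.card G := grp_card hL.pp hidx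
  have hTc : Nat.card (⊤ : Subgroup G) = Nat.card G := Subgroup.card_top
  obtain ⟨Hh, hT⟩ : ∃ Hh, Loc p (⊤ : Subgroup G) Q Hh := by
    refine exists_loc ?_ ?_ le_top hL.cQ
    · rw [hTc, ← hL.cQ]
      exact Subgroup.card_subgroup_dvd_card Q
    · rw [hTc]
      exact hGpp
  have hHHh : H ≤ Hh := by
    intro h hh
    have h1 := hL.mem_H_iff.mp hh
    exact hT.mem_H_iff.mpr ⟨⟨Subgroup.mem_top h, h1.1.2⟩, h1.2⟩
  have hKHh : ∀ h, h ∈ K → h ∈ Hh → h ∈ H := by
    intro h hk hh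
    have h1 := hT.mem_H_iff.mp hh
    exact hL.mem_H_iff.mpr ⟨⟨hk, h1.1.2⟩, h1.2⟩
  have hHK : H ≤ K := fun h hh => (hL.HC hh).1
  have hHst : H ≤ stab φ := fun h hh => Pool.Agent.Helper97.S4.cnj_eq_self hh hφ
  have hQst : Q ≤ stab φ := fun x hx =>
    grp_cent_stab hφ.2 fun h hh => (hL.comm x hx h hh).symm
  have hQC : Q ≤ Subgroup.centralizer (Q : Set G) := by
    intro x hx
    have h1 : x ∈ Q ⊔ H := Subgroup.mem_sup_left hx
    rw [hL.sup] at h1
    exact h1.2
  have hHhC : Hh ≤ Subgroup.centralizer (Q : Set G) := fun h hh => (hT.HC hh).2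
  have hnorm : ∀ s ∈ Subgroup.normalizer (Q : Set G), s ∈ Subgroup.normalizer (Hh : Set G) :=
    fun s hs => hT.norm_H (by
      rw [Subgroup.mem_normalizer_iff]
      intro h
      exact ⟨fun _ => Subgroup.mem_top _, fun _ => Subgroup.mem_top _⟩) hs
  refine ⟨Hh ⊓ stab φ, ?_, inf_le_right, ?_, ?_, ?_, ?_, ?_, ?_, ?_⟩
  · exact le_inf hHHh hHst
  · apply le_antisymm
    · rintro h ⟨h1, h2⟩
      exact hKHh h h1 h2.1
    · intro h hh
      exact ⟨hHK hh, hHHh hh, hHst hh⟩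
  · intro c hc
    refine ⟨grp_cent hL hT hz hc, grp_cent_stab hφ.2 fun h hh => ?_⟩
    exact Subgroup.mem_centralizer_iff.mp hc h (hHK hh)
  · have hle : Hh ⊓ stab φ ≤ Hh := inf_le_left
    refine ⟨?_, hL.QK.trans le_sup_left, hL.cQ, ?_, ?_, ?_⟩
    · intro h
      exact hGpp (h.trans (Subgroup.card_subgroup_dvd_card _))
    · exact le_inf le_sup_right (hle.trans hHhC)
    · intro h
      exact hT.pH (h.trans (Subgroup.card_dvd_of_le hle))
    · apply le_antisymm
      · refine sup_le ?_ ?_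
        · exact le_inf (hL.QK.trans le_sup_left) hQC
        · exact le_inf le_sup_right (hle.trans hHhC)
      · rintro g ⟨hg1, hg2⟩
        obtain ⟨k, hk, h, hh, rfl⟩ := Subgroup.mem_sup_of_normal_left.mp hg1
        have hkC : k ∈ Subgroup.centralizer (Q : Set G) := by
          have e : k = k * h * h⁻¹ := by group
          rw [e]
          exact Subgroup.mul_mem _ hg2 (Subgroup.inv_mem _ (hHhC hh.1))
        have hkQ : k ∈ Q ⊔ H := by
          rw [hL.sup]
          exact ⟨hk, hkC⟩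
        have hle2 : Q ⊔ H ≤ Q ⊔ (Hh ⊓ stab φ) := sup_le_sup_left (le_inf hHHh hHst) Q
        exact Subgroup.mul_mem _ (hle2 hkQ) (Subgroup.mem_sup_right hh)
  · rintro s ⟨hs1, hs2⟩
    have hs3 := hnorm s hs1
    rw [Subgroup.mem_normalizer_iff] at hs3 ⊢
    intro h
    constructor
    · rintro ⟨h1, h2⟩
      refine ⟨(hs3 h).mp h1, ?_⟩
      exact (stab φ).mul_mem ((stab φ).mul_mem hs2 h2) ((stab φ).inv_mem hs2)
    · rintro ⟨h1, h2⟩
      refine ⟨(hs3 h).mpr h1, ?_⟩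
      have e : h = s⁻¹ * (s * h * s⁻¹) * s := by group
      change h ∈ stab φ
      rw [e]
      exact (stab φ).mul_mem ((stab φ).mul_mem ((stab φ).inv_mem hs2) h2) hs2
  · apply le_antisymm
    · rintro s ⟨hs1, hs2⟩
      have h1 : s ∈ Q ⊔ Hh := by
        rw [hT.sup]
        exact ⟨Subgroup.mem_top s, hs1⟩
      obtain ⟨x, hx, h, hh, e⟩ := Pool.Agent.Helper97.S4.Loc.mem_sup hT |>.mp h1
      have h2 : h ∈ stab φ := by
        have e2 : h = x⁻¹ * s := by rw [e]; group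
        rw [e2]
        exact (stab φ).mul_mem ((stab φ).inv_mem (hQst hx)) hs2
      rw [e]
      exact Subgroup.mul_mem _ (Subgroup.mem_sup_left hx) (Subgroup.mem_sup_right ⟨hh, h2⟩)
    · refine sup_le (le_inf hQC hQst) (inf_le_inf hHhC le_rfl)
  · rintro t ⟨ht1, ht2⟩ h ⟨hh1, hh2⟩
    apply hKHh
    · have e : t * h * t⁻¹ * h⁻¹ = t * (h * t⁻¹ * h⁻¹) := by group
      rw [e]
      exact K.mul_mem ht1 (Subgroup.Normal.conj_mem inferInstance _ (K.inv_mem ht1) _)
    · have h3 := hnorm t ht2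
      rw [Subgroup.mem_normalizer_iff] at h3
      exact Hh.mul_mem ((h3 h).mp hh1) (Hh.inv_mem hh1)
  · rintro g ⟨hg1, hg2⟩
    obtain ⟨k, hk, h, hh, rfl⟩ := Subgroup.mem_sup_of_normal_left.mp hg1
    refine ⟨k, ⟨hk, ?_⟩, h, hh, rfl⟩
    have e : k = k * h * h⁻¹ := by group
    have hCN := Subgroup.centralizer_le_normalizer (Q : Set G)
    have h3 : k * h * h⁻¹ ∈ Subgroup.normalizer (Q : Set G) :=
      Subgroup.mul_mem _ hg2 (Subgroup.inv_mem _ (hCN (hHhC hh.1)))
    rw [← e] at h3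
    exact h3

end Pool.Agent.Helper42.IR.E
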